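import Mathlib
import Pool.Agent.Lib.MP_ca0fc2_an.TK.Defs

set_option autoImplicit false
set_option linter.unusedSectionVars false

open Metric Set MeasureTheory Filter Topology
open scoped InnerProductSpace ENNReal ContDiff

namespace Pool.Agent.MPca0fc2.VK

open Pool.Agent.MPca0fc2.PT
open Pool.Agent.MPca0fc2.QT
open Pool.Agent.MPca0fc2.TS
open Pool.Agent.MPca0fc2.TE
open Pool.Agent.MPca0fc2.TK

variable {E : Type*} [NormedAddCommGroup E] [InnerProductSpace ℂ E]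

/-- weights `Q` which vary at most polynomially: `Q x ≤ C Q y (|1 - <x,y>|/(1 - |x|²))^J (|1 - <x,y>|/(1 - |y|²))^(1/8)` -/
structure VW (J : ℕ) (C : ℝ) (Q : E → ℝ) : Prop where
  cont : ContinuousOn Q (ball 0 1)
  pos : ∀ z ∈ ball (0 : E) 1, 0 < Q z
  osc : ∀ x ∈ ball (0 : E) 1, ∀ y ∈ ball (0 : E) 1, Q x ≤ C * Q y *
    ((‖1 - ⟪x, y⟫_ℂ‖ / (1 - ‖x‖ ^ 2)) ^ J * (‖1 - ⟪x, y⟫_ℂ‖ / (1 - ‖y‖ ^ 2)) ^ (1 / 8 : ℝ))

/-- functions like the nonisotropic distance to a subset of the sphere -/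
structure Dst (C : ℝ) (a : E → ℝ) : Prop where
  cont : ContinuousOn a (ball 0 1)
  lo : ∀ z ∈ ball (0 : E) 1, 1 - ‖z‖ ^ 2 ≤ C * a z
  up : ∀ z ∈ ball (0 : E) 1, a z ≤ C
  tri : ∀ z ∈ ball (0 : E) 1, ∀ w ∈ ball (0 : E) 1, a z ≤ C * (a w + ‖1 - ⟪w, z⟫_ℂ‖)

/-- the nonisotropic distance to a set -/
noncomputable def dk (K : Set E) (z : E) : ℝ := sInf ((fun ζ => ‖1 - ⟪ζ, z⟫_ℂ‖) '' K)

/-- the decay function -/
noncomputable def Psi {r : ℕ} (s : ℝ) (b : Fin r → E → ℝ) (z : E) : ℝ :=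
  ∑ i, ((1 - ‖z‖ ^ 2) / b i z) ^ s

section meas

variable [MeasurableSpace E]

/-- the measure with density `(1 - |x|²)^J Q x` -/
noncomputable def nuV (μ : Measure E) (J : ℕ) (Q : E → ℝ) : Measure E :=
  (μ.restrict (ball 0 1)).withDensity fun x => ENNReal.ofReal ((1 - ‖x‖ ^ 2) ^ J * Q x)

end meas

end Pool.Agent.MPca0fc2.VK
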