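import Mathlib
import Pool.Agent.Lib.MP_ca0fc2_an.VK.Defs
import Pool.Agent.Lib.MP_ca0fc2_an.TB.Defs

set_option autoImplicit false
set_option linter.unusedSectionVars false

open Metric Set MeasureTheory Filter Topology
open scoped InnerProductSpace ENNReal ContDiff

namespace Pool.Agent.MPca0fc2.VK


/-- One variable. Let `w = 1 - t ρ`, `τ = 1 - t² ρ²`, `w ≤ τ ≤ 2 w`, `u = w/κ`: `Φ t ≤ min (1/u) ((2 u)^s) ≤ 2 min (u^s) (u^(-s))`-like: for `u ≤ 1` it is `≤ 2 u^s`, for `u ≥ 1` it is `≤ 1/u ≤ u^(-s)`; in both cases `Φ t ≤ 8 u^s/(1 + u^s)²`, and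
`ρ/(1 - t² ρ²) ≤ ρ/w`. `d/dt [-(8/s) u^s/(1 + u^s)] = 8 (ρ/w) u^s/(1 + u^s)²`, so the integral is at most `8/s` (fundamental theorem of calculus; pattern: `SH.one_var`, SH/H3.lean). -/
theorem one_var2 {s : ℝ} (hs : 0 < s) (hs1 : s ≤ 1) : ∃ C : ℝ, 0 < C ∧ ∀ κ ρ : ℝ, 0 < κ → 0 ≤ ρ →
    ρ < 1 → ∀ Φ : ℝ → ℝ, ContinuousOn Φ (Icc 0 1) →
    (∀ t ∈ Icc (0 : ℝ) 1, Φ t ≤ κ / (1 - t ^ 2 * ρ ^ 2)) →
    (∀ t ∈ Icc (0 : ℝ) 1, Φ t ≤ ((1 - t ^ 2 * ρ ^ 2) / κ) ^ s) →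
    ∫ t in Icc (0 : ℝ) 1, Φ t * (ρ / (1 - t ^ 2 * ρ ^ 2)) ≤ C := by
  refine ⟨8 / s, by positivity, ?_⟩
  intro κ ρ hκ hρ0 hρ1 Φ hΦc hΦ1 hΦ2
  have hw : ∀ t ∈ Icc (0 : ℝ) 1, 0 < 1 - t * ρ := by
    intro t ht
    nlinarith [ht.1, ht.2, mul_le_mul ht.2 hρ1.le hρ0 (by norm_num : (0:ℝ) ≤ 1), mul_le_of_le_one_left hρ0 ht.2]
  have hden : ∀ t ∈ Icc (0 : ℝ) 1, 0 < 1 - t ^ 2 * ρ ^ 2 := by
    intro t ht
    have h1 := hw t ht
    have h2 : 0 ≤ t * ρ := mul_nonneg ht.1 hρ0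
    nlinarith
  -- the derivative
  have hder : ∀ t ∈ Icc (0 : ℝ) 1,
      HasDerivAt (fun t => (8 / s) * (1 + ((1 - t * ρ) / κ) ^ s)⁻¹)
        (8 * ρ * ((1 - t * ρ) / κ) ^ s / ((1 - t * ρ) * (1 + ((1 - t * ρ) / κ) ^ s) ^ 2)) t := by
    intro t ht
    have hwt := hw t ht
    have hpos : 0 < (1 - t * ρ) / κ := div_pos hwt hκ
    have h1 : HasDerivAt (fun t : ℝ => (1 - t * ρ) / κ) (-ρ / κ) t := by
      have h := (((hasDerivAt_id t).mul_const ρ).const_sub 1).div_const κ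
      simpa using h
    have h2 := h1.rpow_const (p := s) (Or.inl hpos.ne')
    have hσ : 0 < ((1 - t * ρ) / κ) ^ s := Real.rpow_pos_of_pos hpos _
    have h3 := ((h2.const_add 1).inv (by positivity)).const_mul (8 / s)
    refine h3.congr_deriv ?_
    have h4 : ((1 - t * ρ) / κ) ^ (s - 1) = ((1 - t * ρ) / κ) ^ s / ((1 - t * ρ) / κ) := by
      rw [Real.rpow_sub_one hpos.ne']
    rw [h4]
    have hw' : (1 - t * ρ) ≠ 0 := hwt.ne'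
    field_simp
  have hsc : ContinuousOn (fun t : ℝ => ((1 - t * ρ) / κ) ^ s) (Icc 0 1) := by
    refine ContinuousOn.rpow_const (by fun_prop) ?_
    intro t ht
    exact Or.inl (div_pos (hw t ht) hκ).ne'
  have hRc : ContinuousOn (fun t : ℝ => 8 * ρ * ((1 - t * ρ) / κ) ^ s /
      ((1 - t * ρ) * (1 + ((1 - t * ρ) / κ) ^ s) ^ 2)) (Icc 0 1) := by
    refine (continuousOn_const.mul hsc).div ((by fun_prop : ContinuousOn (fun t : ℝ => 1 - t * ρ) (Icc 0 1)).mul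
      ((continuousOn_const.add hsc).pow 2)) ?_
    intro t ht
    have h1 := hw t ht
    have h2 : 0 < ((1 - t * ρ) / κ) ^ s := Real.rpow_pos_of_pos (div_pos h1 hκ) _
    positivity
  have hLc : ContinuousOn (fun t : ℝ => Φ t * (ρ / (1 - t ^ 2 * ρ ^ 2))) (Icc 0 1) := by
    refine hΦc.mul (continuousOn_const.div (by fun_prop) ?_)
    intro t ht
    exact (hden t ht).ne'
  have hu : uIcc (0 : ℝ) 1 = Icc 0 1 := uIcc_of_le (by norm_num)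
  have hLi : IntervalIntegrable (fun t : ℝ => Φ t * (ρ / (1 - t ^ 2 * ρ ^ 2))) volume 0 1 :=
    ContinuousOn.intervalIntegrable (by rw [hu]; exact hLc)
  have hRi : IntervalIntegrable (fun t : ℝ => 8 * ρ * ((1 - t * ρ) / κ) ^ s /
      ((1 - t * ρ) * (1 + ((1 - t * ρ) / κ) ^ s) ^ 2)) volume 0 1 :=
    ContinuousOn.intervalIntegrable (by rw [hu]; exact hRc)
  rw [integral_Icc_eq_integral_Ioc, ← intervalIntegral.integral_of_le (by norm_num : (0:ℝ) ≤ 1)]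
  have hmono : (∫ t in (0:ℝ)..1, Φ t * (ρ / (1 - t ^ 2 * ρ ^ 2))) ≤
      ∫ t in (0:ℝ)..1, 8 * ρ * ((1 - t * ρ) / κ) ^ s /
        ((1 - t * ρ) * (1 + ((1 - t * ρ) / κ) ^ s) ^ 2) := by
    refine intervalIntegral.integral_mono_on (by norm_num) hLi hRi ?_
    intro t ht
    have hwt := hw t ht
    have hd := hden t ht
    have hpos : 0 < (1 - t * ρ) / κ := div_pos hwt hκ
    have htρ : 0 ≤ t * ρ := mul_nonneg ht.1 hρ0
    have hσ : 0 < ((1 - t * ρ) / κ) ^ s := Real.rpow_pos_of_pos hpos _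
    have hτ : 1 - t * ρ ≤ 1 - t ^ 2 * ρ ^ 2 := by nlinarith
    have hτ2 : 1 - t ^ 2 * ρ ^ 2 ≤ 2 * (1 - t * ρ) := by nlinarith
    have h1 : Φ t ≤ 2 * ((1 - t * ρ) / κ) ^ s := by
      refine (hΦ2 t ht).trans ?_
      calc ((1 - t ^ 2 * ρ ^ 2) / κ) ^ s ≤ (2 * ((1 - t * ρ) / κ)) ^ s := by
            refine Real.rpow_le_rpow (by positivity) ?_ hs.le
            rw [mul_div_assoc']
            exact div_le_div_of_nonneg_right hτ2 hκ.le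
        _ = 2 ^ s * ((1 - t * ρ) / κ) ^ s := Real.mul_rpow (by norm_num) hpos.le
        _ ≤ 2 * ((1 - t * ρ) / κ) ^ s := by
            refine mul_le_mul_of_nonneg_right ?_ hσ.le
            calc (2 : ℝ) ^ s ≤ 2 ^ (1 : ℝ) := Real.rpow_le_rpow_of_exponent_le (by norm_num) hs1
              _ = 2 := Real.rpow_one _
    have h2 : Φ t ≤ 8 * ((1 - t * ρ) / κ) ^ s / (1 + ((1 - t * ρ) / κ) ^ s) ^ 2 := by
      rcases le_total ((1 - t * ρ) / κ) 1 with h | h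
      · have hσ1 : ((1 - t * ρ) / κ) ^ s ≤ 1 := Real.rpow_le_one hpos.le h hs.le
        refine h1.trans ?_
        rw [le_div_iff₀ (by positivity)]
        nlinarith [mul_nonneg hσ.le (sub_nonneg.2 hσ1), mul_nonneg (mul_nonneg hσ.le hσ.le) (sub_nonneg.2 hσ1)]
      · have hσ1 : 1 ≤ ((1 - t * ρ) / κ) ^ s := Real.one_le_rpow h hs.le
        have hσ2 : ((1 - t * ρ) / κ) ^ s ≤ (1 - t * ρ) / κ := by
          calc ((1 - t * ρ) / κ) ^ s ≤ ((1 - t * ρ) / κ) ^ (1 : ℝ) := Real.rpow_le_rpow_of_exponent_le h hs1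
            _ = (1 - t * ρ) / κ := Real.rpow_one _
        have h3 : Φ t ≤ 1 / ((1 - t * ρ) / κ) := by
          refine (hΦ1 t ht).trans ?_
          rw [one_div_div]
          exact div_le_div_of_nonneg_left hκ.le hwt hτ
        have h4 : 1 / ((1 - t * ρ) / κ) ≤ 1 / ((1 - t * ρ) / κ) ^ s := one_div_le_one_div_of_le hσ hσ2
        refine (h3.trans h4).trans ?_
        rw [div_le_div_iff₀ hσ (by positivity)]
        nlinarith [mul_nonneg hσ.le (sub_nonneg.2 hσ1)]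
    have h3 : ρ / (1 - t ^ 2 * ρ ^ 2) ≤ ρ / (1 - t * ρ) := div_le_div_of_nonneg_left hρ0 hwt hτ
    have h4 : 0 ≤ ρ / (1 - t ^ 2 * ρ ^ 2) := div_nonneg hρ0 hd.le
    calc Φ t * (ρ / (1 - t ^ 2 * ρ ^ 2))
        ≤ (8 * ((1 - t * ρ) / κ) ^ s / (1 + ((1 - t * ρ) / κ) ^ s) ^ 2) * (ρ / (1 - t ^ 2 * ρ ^ 2)) :=
          mul_le_mul_of_nonneg_right h2 h4
      _ ≤ (8 * ((1 - t * ρ) / κ) ^ s / (1 + ((1 - t * ρ) / κ) ^ s) ^ 2) * (ρ / (1 - t * ρ)) :=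
          mul_le_mul_of_nonneg_left h3 (by positivity)
      _ = 8 * ρ * ((1 - t * ρ) / κ) ^ s / ((1 - t * ρ) * (1 + ((1 - t * ρ) / κ) ^ s) ^ 2) := by
          rw [div_mul_div_comm]
          congr 1 <;> ring
  have hftc : (∫ t in (0:ℝ)..1, 8 * ρ * ((1 - t * ρ) / κ) ^ s /
      ((1 - t * ρ) * (1 + ((1 - t * ρ) / κ) ^ s) ^ 2)) =
      (8 / s) * (1 + ((1 - 1 * ρ) / κ) ^ s)⁻¹ - (8 / s) * (1 + ((1 - 0 * ρ) / κ) ^ s)⁻¹ :=
    intervalIntegral.integral_eq_sub_of_hasDerivAt (by rw [hu]; exact hder) hRi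
  rw [hftc] at hmono
  have hs8 : 0 < 8 / s := by positivity
  have e1 : (1 + ((1 - 1 * ρ) / κ) ^ s)⁻¹ ≤ 1 := by
    have h1 := hw 1 ⟨by norm_num, le_refl _⟩
    have h2 : 0 < ((1 - 1 * ρ) / κ) ^ s := Real.rpow_pos_of_pos (div_pos h1 hκ) _
    exact inv_le_one_of_one_le₀ (by linarith)
  have e2 : 0 ≤ (1 + ((1 - 0 * ρ) / κ) ^ s)⁻¹ := by
    have h1 := hw 0 ⟨le_refl _, by norm_num⟩
    have h2 : 0 < ((1 - 0 * ρ) / κ) ^ s := Real.rpow_pos_of_pos (div_pos h1 hκ) _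
    positivity
  have e3 := mul_le_mul_of_nonneg_left e1 hs8.le
  have e4 := mul_nonneg hs8.le e2
  linarith

/-- The case `κ = 1` of `one_var2` (the first condition follows from the second: `τ^s ≤ 1 ≤ 1/τ`). -/
theorem one_var3 {s : ℝ} (hs : 0 < s) (hs1 : s ≤ 1) : ∃ C : ℝ, 0 < C ∧ ∀ ρ : ℝ, 0 ≤ ρ →
    ρ < 1 → ∀ Φ : ℝ → ℝ, ContinuousOn Φ (Icc 0 1) →
    (∀ t ∈ Icc (0 : ℝ) 1, Φ t ≤ (1 - t ^ 2 * ρ ^ 2) ^ s) →
    ∫ t in Icc (0 : ℝ) 1, Φ t * (ρ / (1 - t ^ 2 * ρ ^ 2)) ≤ C := by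
  obtain ⟨C, hC, h⟩ := one_var2 hs hs1
  refine ⟨C, hC, ?_⟩
  intro ρ hρ0 hρ1 Φ hΦc hΦ
  refine h 1 ρ one_pos hρ0 hρ1 Φ hΦc ?_ ?_
  · intro t ht
    have htρ : 0 ≤ t * ρ := mul_nonneg ht.1 hρ0
    have htρ1 : t * ρ < 1 := by nlinarith [mul_le_mul_of_nonneg_right ht.2 hρ0]
    have h0 : 0 < 1 - t ^ 2 * ρ ^ 2 := by nlinarith
    have h1 : 1 - t ^ 2 * ρ ^ 2 ≤ 1 := by nlinarith
    refine (hΦ t ht).trans ?_
    refine (Real.rpow_le_one h0.le h1 hs.le).trans ?_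
    rw [le_div_iff₀ h0]
    linarith
  · intro t ht
    rw [div_one]
    exact hΦ t ht

end Pool.Agent.MPca0fc2.VK
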