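import Mathlib
import Pool.Agent.Lib.MP_ca0fc2_an.VK.Defs
import Pool.Agent.Lib.MP_ca0fc2_an.TS.Gr
import Pool.Agent.Lib.MP_ca0fc2_an.TE.OscK
import Pool.Agent.Lib.MP_ca0fc2_an.TE.G6
import Pool.Agent.Lib.MP_ca0fc2_an.SH.H1

set_option autoImplicit false
set_option linter.unusedSectionVars false

open Metric Set MeasureTheory Filter Topology
open scoped InnerProductSpace ENNReal ContDiff

namespace Pool.Agent.MPca0fc2.VK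

open Pool.Agent.MPca0fc2.PT
open Pool.Agent.MPca0fc2.QT
open Pool.Agent.MPca0fc2.TS
open Pool.Agent.MPca0fc2.TE
open Pool.Agent.MPca0fc2.TK

variable {E : Type*} [NormedAddCommGroup E] [InnerProductSpace ℂ E]

private theorem D1_one (x y : E) (hx : ‖x‖ ≤ 1) : 1 - ‖y‖ ≤ ‖1 - ⟪x, y⟫_ℂ‖ := by
  have h1 : ‖(1 : ℂ)‖ ≤ ‖1 - ⟪x, y⟫_ℂ‖ + ‖⟪x, y⟫_ℂ‖ := by
    calc ‖(1 : ℂ)‖ = ‖(1 - ⟪x, y⟫_ℂ) + ⟪x, y⟫_ℂ‖ := by rw [sub_add_cancel]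
      _ ≤ _ := norm_add_le _ _
  have h2 : ‖⟪x, y⟫_ℂ‖ ≤ ‖x‖ * ‖y‖ := norm_inner_le_norm x y
  have h3 : ‖x‖ * ‖y‖ ≤ ‖y‖ := mul_le_of_le_one_left (norm_nonneg y) hx
  rw [norm_one] at h1
  linarith

/-- `‖1 - ⟪ζ, z⟫‖` is `1`-Lipschitz in `z` (`‖ζ‖ = 1`), so `dk K` is `1`-Lipschitz; `1 - ‖z‖² ≤ 2 (1 - ‖z‖) ≤ 2 ‖1 - ⟪ζ, z⟫‖`; `tri`: `SH.tri` (SH/H1.lean) with `p := ζ`, `x := w`, `y := z`, and the infimum over `ζ` (`csInf_le`, `le_csInf`). -/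
theorem Dst_dk {K : Set E} (hK : K.Nonempty) (hKs : K ⊆ sphere 0 1) : Dst 4 (dk K) := by
  have hbd : ∀ z : E, BddBelow ((fun ζ => ‖1 - ⟪ζ, z⟫_ℂ‖) '' K) := fun z =>
    ⟨0, by rintro _ ⟨ζ, _, rfl⟩; exact norm_nonneg _⟩
  have hne : ∀ z : E, ((fun ζ => ‖1 - ⟪ζ, z⟫_ℂ‖) '' K).Nonempty := fun z => hK.image _
  have hle : ∀ z : E, ∀ ζ ∈ K, dk K z ≤ ‖1 - ⟪ζ, z⟫_ℂ‖ := fun z ζ hζ =>
    csInf_le (hbd z) ⟨ζ, hζ, rfl⟩
  have hge : ∀ (z : E) (b : ℝ), (∀ ζ ∈ K, b ≤ ‖1 - ⟪ζ, z⟫_ℂ‖) → b ≤ dk K z := by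
    intro z b hb
    refine le_csInf (hne z) ?_
    rintro _ ⟨ζ, hζ, rfl⟩
    exact hb ζ hζ
  have hn : ∀ ζ ∈ K, ‖ζ‖ = 1 := fun ζ hζ => by simpa using hKs hζ
  have hlip : ∀ z w : E, dk K z ≤ dk K w + ‖z - w‖ := by
    intro z w
    have h : dk K z - ‖z - w‖ ≤ dk K w := by
      refine hge w _ fun ζ hζ => ?_
      have h1 := hle z ζ hζ
      have e : 1 - ⟪ζ, z⟫_ℂ = (1 - ⟪ζ, w⟫_ℂ) + ⟪ζ, w - z⟫_ℂ := by
        rw [inner_sub_right]; ring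
      have h2 : ‖1 - ⟪ζ, z⟫_ℂ‖ ≤ ‖1 - ⟪ζ, w⟫_ℂ‖ + ‖ζ‖ * ‖w - z‖ := by
        rw [e]
        exact (norm_add_le _ _).trans (add_le_add le_rfl (norm_inner_le_norm _ _))
      rw [hn ζ hζ, one_mul, norm_sub_rev w z] at h2
      linarith
    linarith
  refine ⟨?_, fun z hz => ?_, fun z hz => ?_, fun z hz w hw => ?_⟩
  · have h : LipschitzWith 1 (dk K) := by
      refine LipschitzWith.of_le_add fun z w => ?_
      rw [dist_eq_norm]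
      exact hlip z w
    exact h.continuous.continuousOn
  · have hz1 : ‖z‖ < 1 := by simpa using hz
    have h : (1 - ‖z‖ ^ 2) / 4 ≤ dk K z := by
      refine hge z _ fun ζ hζ => ?_
      have h1 := D1_one ζ z (hn ζ hζ).le
      nlinarith [norm_nonneg z]
    linarith
  · have hz1 : ‖z‖ < 1 := by simpa using hz
    obtain ⟨ζ, hζ⟩ := hK
    have h1 := hle z ζ hζ
    have h2 : ‖1 - ⟪ζ, z⟫_ℂ‖ ≤ 1 + ‖ζ‖ * ‖z‖ := by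
      refine (norm_sub_le _ _).trans ?_
      rw [norm_one]
      exact add_le_add le_rfl (norm_inner_le_norm _ _)
    rw [hn ζ hζ, one_mul] at h2
    linarith
  · have hz1 : ‖z‖ < 1 := by simpa using hz
    have hw1 : ‖w‖ < 1 := by simpa using hw
    have h : dk K z / 4 - ‖1 - ⟪w, z⟫_ℂ‖ ≤ dk K w := by
      refine hge w _ fun ζ hζ => ?_
      have h1 := hle z ζ hζ
      have h2 := SH.tri (x := w) (y := z) (p := ζ) hw1.le hz1.le (hn ζ hζ).le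
      have h3 := norm_nonneg (1 - ⟪ζ, w⟫_ℂ)
      linarith
    linarith

end Pool.Agent.MPca0fc2.VK
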