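import Mathlib
import Pool.Agent.Lib.MP_ca0fc2_an.VK.Defs
import Pool.Agent.Lib.MP_ca0fc2_an.TS.Gr

set_option autoImplicit false
set_option linter.unusedSectionVars false

open Metric Set MeasureTheory Filter Topology
open scoped InnerProductSpace ENNReal ContDiff

namespace Pool.Agent.MPca0fc2.VK

open Pool.Agent.MPca0fc2.PT
open Pool.Agent.MPca0fc2.QT
open Pool.Agent.MPca0fc2.TS
open Pool.Agent.MPca0fc2.TE
open Pool.Agent.MPca0fc2.TK

variable {E : Type*} [NormedAddCommGroup E] [InnerProductSpace ℂ E] [FiniteDimensional ℂ E]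
  [MeasurableSpace E] [BorelSpace E]

/-- Finite measures. Copy of `TK.nuH_OnB` (TK/K1.lean): the density is bounded on the ball: `osc` with `y = 0` (`‖1 - ⟪x, 0⟫‖ = 1`): `(1 - ‖x‖²)^J Q x ≤ C Q 0`. -/
theorem nuV_OnB (μ : Measure E) [μ.IsAddHaarMeasure] {J : ℕ} {C : ℝ} {Q : E → ℝ} (hQ : VW J C Q) :
    OnB (nuV μ J Q) := by
  have hprop : ProperSpace E := FiniteDimensional.proper ℂ E
  refine ⟨⟨?_⟩, ?_⟩
  · unfold nuV
    rw [withDensity_apply _ MeasurableSet.univ, Measure.restrict_univ]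
    have hle : ∫⁻ x in ball (0 : E) 1, ENNReal.ofReal ((1 - ‖x‖ ^ 2) ^ J * Q x) ∂μ ≤
        ∫⁻ x in ball (0 : E) 1, ENNReal.ofReal (C * Q 0) ∂μ := by
      refine setLIntegral_mono' measurableSet_ball fun x hx => ?_
      apply ENNReal.ofReal_le_ofReal
      have h1 := hQ.osc x hx 0 (mem_ball_self zero_lt_one)
      rw [mem_ball_zero_iff] at hx
      have h0 : 0 < 1 - ‖x‖ ^ 2 := by nlinarith [norm_nonneg x]
      have h2 : ‖(1 : ℂ) - ⟪x, (0 : E)⟫_ℂ‖ = 1 := by
        rw [inner_zero_right, sub_zero, norm_one]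
      have h3 : (1 : ℝ) - ‖(0 : E)‖ ^ 2 = 1 := by
        rw [norm_zero]
        norm_num
      rw [h2, h3, div_one, Real.one_rpow, mul_one] at h1
      have h4 : 0 < (1 - ‖x‖ ^ 2) ^ J := pow_pos h0 J
      calc (1 - ‖x‖ ^ 2) ^ J * Q x ≤
          (1 - ‖x‖ ^ 2) ^ J * (C * Q 0 * (1 / (1 - ‖x‖ ^ 2)) ^ J) :=
            mul_le_mul_of_nonneg_left h1 h4.le
        _ = C * Q 0 * ((1 - ‖x‖ ^ 2) ^ J * (1 / (1 - ‖x‖ ^ 2)) ^ J) := by ring
        _ = C * Q 0 := by
            rw [← mul_pow, mul_one_div_cancel h0.ne', one_pow, mul_one]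
    refine lt_of_le_of_lt hle ?_
    rw [lintegral_const, Measure.restrict_apply_univ]
    exact ENNReal.mul_lt_top ENNReal.ofReal_lt_top measure_ball_lt_top
  · unfold nuV
    refine withDensity_absolutelyContinuous _ _ ?_
    rw [Measure.restrict_apply measurableSet_ball.compl, compl_inter_self, measure_empty]

/-- Copy of `TK.PP_nuH` (TK/K1.lean). -/
theorem PP_nuV (μ : Measure E) [μ.IsAddHaarMeasure] {J : ℕ} {C : ℝ} {Q : E → ℝ} (hQ : VW J C Q)
    (p : ℝ) (z : E) : PP (nuV μ J Q) p z =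
      ∫ x in ball (0 : E) 1, (1 - ‖x‖ ^ 2) ^ J * Q x * ‖1 - ⟪x, z⟫_ℂ‖ ^ (-p) ∂μ := by
  have hmeas : AEMeasurable (fun x : E => ENNReal.ofReal ((1 - ‖x‖ ^ 2) ^ J * Q x))
      (μ.restrict (ball 0 1)) := by
    apply AEMeasurable.ennreal_ofReal
    have h0 : Measurable fun x : E => (1 - ‖x‖ ^ 2) ^ J :=
      (measurable_const.sub (measurable_norm.pow_const 2)).pow_const J
    have h1 : AEMeasurable (fun x : E => Q x) (μ.restrict (ball 0 1)) :=
      hQ.cont.aemeasurable measurableSet_ball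
    exact h0.aemeasurable.mul h1
  unfold PP nuV
  rw [integral_withDensity_eq_integral_toReal_smul₀ hmeas
    (Filter.Eventually.of_forall fun _ => ENNReal.ofReal_lt_top)]
  refine setIntegral_congr_fun measurableSet_ball fun x hx => ?_
  have hx1 := hQ.pos x hx
  rw [mem_ball_zero_iff] at hx
  have hx2 : 0 ≤ 1 - ‖x‖ ^ 2 := by nlinarith [norm_nonneg x]
  simp only [smul_eq_mul]
  rw [ENNReal.toReal_ofReal (mul_nonneg (pow_nonneg hx2 J) hx1.le)]

end Pool.Agent.MPca0fc2.VK
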