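import Mathlib
import Pool.Agent.Lib.MP_ca0fc2_an.VK.V1

set_option autoImplicit false
set_option linter.unusedSectionVars false

open Metric Set MeasureTheory Filter Topology
open scoped InnerProductSpace ENNReal ContDiff

namespace Pool.Agent.MPca0fc2.VK

open Pool.Agent.MPca0fc2.PT
open Pool.Agent.MPca0fc2.QT
open Pool.Agent.MPca0fc2.TS
open Pool.Agent.MPca0fc2.TE
open Pool.Agent.MPca0fc2.TK

variable {E : Type*} [NormedAddCommGroup E] [InnerProductSpace ℂ E] [FiniteDimensional ℂ E]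
  [MeasurableSpace E] [BorelSpace E]

omit [FiniteDimensional ℂ E] [MeasurableSpace E] [BorelSpace E] in
private theorem V2_den {y x : E} (hy : ‖y‖ < 1) (hx : ‖x‖ < 1 / 2) :
    1 / 2 ≤ ‖1 + ⟪y, x⟫_ℂ‖ ∧ ‖1 + ⟪y, x⟫_ℂ‖ ≤ 3 / 2 := by
  have h1 : ‖⟪y, x⟫_ℂ‖ ≤ 1 / 2 := by
    have h2 := norm_inner_le_norm (𝕜 := ℂ) y x
    nlinarith [norm_nonneg y, norm_nonneg x]
  have h3 := norm_sub_norm_le (1 : ℂ) (-⟪y, x⟫_ℂ)
  rw [sub_neg_eq_add, norm_neg, norm_one] at h3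
  have h4 := norm_add_le (1 : ℂ) ⟪y, x⟫_ℂ
  rw [norm_one] at h4
  exact ⟨by linarith, by linarith⟩

omit [FiniteDimensional ℂ E] [MeasurableSpace E] [BorelSpace E] in
private theorem V2_ker' {y x : E} (hy : ‖y‖ < 1) (hx : ‖x‖ < 1) :
    ‖1 - ⟪y, gg y x⟫_ℂ‖ = (1 - ‖y‖ ^ 2) / ‖1 + ⟪y, x⟫_ℂ‖ := by
  have ha : 0 ≤ 1 - ‖y‖ ^ 2 := by nlinarith [norm_nonneg y]
  rw [inner_gg_self hy hx.le, norm_div, Complex.norm_real, Real.norm_of_nonneg ha]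

omit [FiniteDimensional ℂ E] [MeasurableSpace E] [BorelSpace E] in
private theorem V2_ker {y x : E} (hy : ‖y‖ < 1) (hx : ‖x‖ < 1) :
    ‖1 - ⟪gg y x, y⟫_ℂ‖ = (1 - ‖y‖ ^ 2) / ‖1 + ⟪y, x⟫_ℂ‖ := by
  rw [← V2_ker' hy hx, ← Complex.norm_conj, map_sub, map_one, inner_conj_symm]

private theorem V2_int {ν : Measure E} (hν : OnB ν) {p : ℝ} (hp : 0 ≤ p) {y : E}
    (hy : ‖y‖ < 1) : Integrable (fun x => ‖1 - ⟪x, y⟫_ℂ‖ ^ (-p)) ν := by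
  have := hν.fin
  have hcont : Continuous fun x : E => ‖1 - ⟪x, y⟫_ℂ‖ := by fun_prop
  have hmeas : Measurable fun x : E => ‖1 - ⟪x, y⟫_ℂ‖ ^ (-p) := hcont.measurable.pow_const _
  refine Integrable.mono' (integrable_const ((1 - ‖y‖) ^ (-p))) hmeas.aestronglyMeasurable ?_
  have hae : ∀ᵐ x ∂ν, x ∈ ball (0 : E) 1 := by
    rw [ae_iff]
    exact hν.supp
  filter_upwards [hae] with x hx
  rw [mem_ball_zero_iff] at hx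
  rw [Real.norm_of_nonneg (Real.rpow_nonneg (norm_nonneg _) _)]
  apply Real.rpow_le_rpow_of_nonpos (by linarith) _ (by linarith)
  have h1 := norm_inner_le_norm (𝕜 := ℂ) x y
  have h2 := norm_sub_norm_le (1 : ℂ) ⟪x, y⟫_ℂ
  rw [norm_one] at h2
  nlinarith [norm_nonneg y, norm_nonneg x]

private theorem V2_real {a D b q q0 : ℝ} (m J : ℕ) (ha : 0 < a) (hD1 : 1 / 2 ≤ D)
    (hD2 : D ≤ 3 / 2) (hb : 3 / 4 ≤ b) (hq0 : 0 < q0) (hq : q0 ≤ q) :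
    (1 / 2) ^ (m + 3 + J) * a ^ (-(1 / 4 : ℝ)) * q0 ≤ (a / D ^ 2) ^ (m + 2) *
      ((a * b / D ^ 2) ^ J * q * (a / D) ^ (-(((m + 2 + J : ℕ) : ℝ) + 1 / 4))) := by
  have hD0 : 0 < D := by linarith
  have hb0 : 0 < b := by linarith
  have haD : 0 < a / D := by positivity
  have hq1 : 0 < q := by linarith
  have h1 : (a / D) ^ (-(((m + 2 + J : ℕ) : ℝ) + 1 / 4)) =
      ((a / D) ^ (m + 2 + J))⁻¹ * (a / D) ^ (-(1 / 4 : ℝ)) := by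
    rw [neg_add, Real.rpow_add haD, Real.rpow_neg haD.le, Real.rpow_natCast]
  have h5 : 0 < a ^ (-(1 / 4 : ℝ)) := Real.rpow_pos_of_pos ha _
  have h6 : (1 / 2 : ℝ) * a ^ (-(1 / 4 : ℝ)) ≤ (a / D) ^ (-(1 / 4 : ℝ)) := by
    rw [Real.div_rpow ha.le hD0.le, Real.rpow_neg hD0.le, div_inv_eq_mul, mul_comm]
    have h7 : (1 / 2 : ℝ) ^ (1 / 4 : ℝ) ≤ D ^ (1 / 4 : ℝ) :=
      Real.rpow_le_rpow (by norm_num) hD1 (by norm_num)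
    have h8 : (1 / 2 : ℝ) ^ (1 : ℝ) ≤ (1 / 2 : ℝ) ^ (1 / 4 : ℝ) :=
      Real.rpow_le_rpow_of_exponent_ge (by norm_num) (by norm_num) (by norm_num)
    rw [Real.rpow_one] at h8
    exact mul_le_mul_of_nonneg_left (h8.trans h7) h5.le
  have h2 : a * b / D ^ 2 = (a / D) * (b / D) := by field_simp
  have h3 : a / D ^ 2 = (a / D) * (1 / D) := by field_simp
  have hbD : 1 / 2 ≤ b / D := by
    rw [le_div_iff₀ hD0]; linarith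
  have h1D : 1 / 2 ≤ 1 / D := by
    rw [div_le_div_iff₀ (by norm_num) hD0]; linarith
  rw [h1, h2, h3]
  generalize (a / D) ^ (-(1 / 4 : ℝ)) = w at *
  generalize a ^ (-(1 / 4 : ℝ)) = g at *
  generalize a / D = t at *
  generalize b / D = r at *
  generalize 1 / D = e at *
  have e1 : (t * e) ^ (m + 2) * ((t * r) ^ J * q * ((t ^ (m + 2 + J))⁻¹ * w)) =
      e ^ (m + 2) * r ^ J * w * q := by
    have : t ^ (m + 2 + J) = t ^ (m + 2) * t ^ J := by ring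
    rw [this, mul_pow, mul_pow]
    field_simp
  rw [e1]
  have e2 : (1 / 2 : ℝ) ^ (m + 3 + J) * g * q0 =
      (1 / 2) ^ (m + 2) * (1 / 2) ^ J * ((1 / 2) * g) * q0 := by ring
  rw [e2]
  have h9 : 0 ≤ r := by linarith
  have h10 : 0 ≤ e := by linarith
  have h11 : 0 ≤ w := by linarith [mul_pos (by norm_num : (0 : ℝ) < 1 / 2) h5]
  gcongr

/-- Lower bound. Copy of `TK.Om_lowH` (TK/K2.lean), with `(1 - ‖x‖²)^J Q x` instead of `(1 - ‖x‖²)/‖H x‖` and exponent `m + 2 + J` instead of `m + 3`; on `x = gg y x'`, `‖x'‖ < 1/2`: `Q y ≤ C' Q x` (`osc` with the roles `x := y`, `y := x`: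
`‖1 - ⟪y, x⟫‖ ≤ 2 (1 - ‖y‖²)` and `‖1 - ⟪y, x⟫‖ ≤ const (1 - ‖x‖²)`). -/
theorem Om_lowV (μ : Measure E) [μ.IsAddHaarMeasure] {m : ℕ} (hm : 1 ≤ m)
    (hdim : Module.finrank ℂ E = m + 1) (J : ℕ) {C : ℝ} (hC : 0 < C) :
    ∃ a : ℝ, 0 < a ∧ ∀ Q : E → ℝ, VW J C Q → ∀ y ∈ ball (0 : E) 1,
      a * Q y ≤ Om (nuV μ J Q) (m + 2 + J) y := by
  have hprop : ProperSpace E := FiniteDimensional.proper ℂ E
  set V : ℝ := μ.real (ball (0 : E) (1 / 2)) with hV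
  have hV0 : 0 < V :=
    ENNReal.toReal_pos (measure_ball_pos μ 0 (by norm_num)).ne' measure_ball_lt_top.ne
  have hVV : μ (ball (0 : E) (1 / 2)) = ENNReal.ofReal V := by
    rw [hV, ofReal_measureReal]
  obtain ⟨C₁, hC₁⟩ : ∃ C₁ : ℝ, C₁ = C * (2 ^ J * 2) := ⟨_, rfl⟩
  have hC₁0 : 0 < C₁ := by rw [hC₁]; positivity
  refine ⟨(1 / 2) ^ (m + 3 + J) / C₁ * V, by positivity, ?_⟩
  intro Q hQ y hy
  have hy1 : ‖y‖ < 1 := mem_ball_zero_iff.mp hy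
  have ha : 0 < 1 - ‖y‖ ^ 2 := by nlinarith [norm_nonneg y]
  have hQy : 0 < Q y := hQ.pos y hy
  have hB : OnB (nuV μ J Q) := nuV_OnB μ hQ
  obtain ⟨P, hP⟩ : ∃ P, P = PP (nuV μ J Q) (((m + 2 + J : ℕ) : ℝ) + 1 / 4) y := ⟨_, rfl⟩
  have hP0 : 0 ≤ P := by
    rw [hP]
    exact integral_nonneg fun x => Real.rpow_nonneg (norm_nonneg _) _
  have hdm : AEMeasurable (fun x : E => ENNReal.ofReal ((1 - ‖x‖ ^ 2) ^ J * Q x))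
      (μ.restrict (ball (0 : E) 1)) := by
    have h5 : AEMeasurable (fun x : E => (1 - ‖x‖ ^ 2) ^ J) (μ.restrict (ball (0 : E) 1)) :=
      ((measurable_const.sub (measurable_norm.pow_const 2)).pow_const J).aemeasurable
    have h6 : AEMeasurable Q (μ.restrict (ball (0 : E) 1)) :=
      hQ.cont.aemeasurable measurableSet_ball
    exact (h5.mul h6).ennreal_ofReal
  have hkm : Measurable fun x : E =>
      ENNReal.ofReal (‖1 - ⟪x, y⟫_ℂ‖ ^ (-(((m + 2 + J : ℕ) : ℝ) + 1 / 4))) := by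
    have hcont : Continuous fun x : E => ‖1 - ⟪x, y⟫_ℂ‖ := by fun_prop
    exact ENNReal.measurable_ofReal.comp (hcont.measurable.pow_const _)
  have h2 : ENNReal.ofReal P = ∫⁻ x in ball (0 : E) 1,
      ENNReal.ofReal (((1 - ‖y‖ ^ 2) / ‖1 + ⟪y, x⟫_ℂ‖ ^ 2) ^ (m + 2)) *
        (ENNReal.ofReal ((1 - ‖gg y x‖ ^ 2) ^ J * Q (gg y x)) *
          ENNReal.ofReal (‖1 - ⟪gg y x, y⟫_ℂ‖ ^ (-(((m + 2 + J : ℕ) : ℝ) + 1 / 4)))) ∂μ := by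
    rw [← lintegral_gg μ hdim hy1 (fun x => ENNReal.ofReal ((1 - ‖x‖ ^ 2) ^ J * Q x) *
      ENNReal.ofReal (‖1 - ⟪x, y⟫_ℂ‖ ^ (-(((m + 2 + J : ℕ) : ℝ) + 1 / 4)))),
      hP, PP, ofReal_integral_eq_lintegral_ofReal (V2_int hB (by positivity) hy1)
      (ae_of_all _ fun _ => Real.rpow_nonneg (norm_nonneg _) _), nuV,
      lintegral_withDensity_eq_lintegral_mul₀ hdm hkm.aemeasurable]
    rfl
  have h3 : ENNReal.ofReal ((1 / 2) ^ (m + 3 + J) * (1 - ‖y‖ ^ 2) ^ (-(1 / 4 : ℝ)) * (Q y / C₁)) *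
      μ (ball (0 : E) (1 / 2)) ≤ ENNReal.ofReal P := by
    rw [h2, ← setLIntegral_const]
    refine le_trans ?_ (lintegral_mono_set (ball_subset_ball (by norm_num : (1 : ℝ) / 2 ≤ 1)))
    apply setLIntegral_mono' measurableSet_ball
    intro x hx
    rw [mem_ball_zero_iff] at hx
    have hx1 : ‖x‖ < 1 := by linarith
    obtain ⟨hD1, hD2⟩ := V2_den hy1 hx
    have hb : 3 / 4 ≤ 1 - ‖x‖ ^ 2 := by nlinarith [norm_nonneg x]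
    have hgx := gg_lt hy1 hx1
    have hgb : gg y x ∈ ball (0 : E) 1 := mem_ball_zero_iff.mpr hgx
    have hw : 0 < 1 - ‖gg y x‖ ^ 2 := by nlinarith [norm_nonneg (gg y x)]
    have hQg : 0 < Q (gg y x) := hQ.pos _ hgb
    have hD0 : 0 < ‖1 + ⟪y, x⟫_ℂ‖ := by linarith
    have hQu : Q y / C₁ ≤ Q (gg y x) := by
      have t1 := hQ.osc y hy (gg y x) hgb
      rw [V2_ker' hy1 hx1, norm_gg hy1 hx1.le] at t1
      have t2 : (1 - ‖y‖ ^ 2) / ‖1 + ⟪y, x⟫_ℂ‖ / (1 - ‖y‖ ^ 2) = 1 / ‖1 + ⟪y, x⟫_ℂ‖ := by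
        field_simp
      have t3 : (1 - ‖y‖ ^ 2) / ‖1 + ⟪y, x⟫_ℂ‖ /
          ((1 - ‖y‖ ^ 2) * (1 - ‖x‖ ^ 2) / ‖1 + ⟪y, x⟫_ℂ‖ ^ 2) =
          ‖1 + ⟪y, x⟫_ℂ‖ / (1 - ‖x‖ ^ 2) := by
        have : 0 < 1 - ‖x‖ ^ 2 := by linarith
        field_simp
      rw [t2, t3] at t1
      have t4 : (1 / ‖1 + ⟪y, x⟫_ℂ‖) ^ J ≤ 2 ^ J := by
        apply pow_le_pow_left₀ (by positivity)
        rw [div_le_iff₀ hD0]
        linarith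
      have t5 : (‖1 + ⟪y, x⟫_ℂ‖ / (1 - ‖x‖ ^ 2)) ^ (1 / 8 : ℝ) ≤ 2 := by
        have t6 : ‖1 + ⟪y, x⟫_ℂ‖ / (1 - ‖x‖ ^ 2) ≤ 2 := by
          rw [div_le_iff₀ (by linarith)]
          linarith
        have t7 : 0 ≤ ‖1 + ⟪y, x⟫_ℂ‖ / (1 - ‖x‖ ^ 2) := div_nonneg hD0.le (by linarith)
        calc (‖1 + ⟪y, x⟫_ℂ‖ / (1 - ‖x‖ ^ 2)) ^ (1 / 8 : ℝ) ≤ (2 : ℝ) ^ (1 / 8 : ℝ) :=
              Real.rpow_le_rpow t7 t6 (by norm_num)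
          _ ≤ (2 : ℝ) ^ (1 : ℝ) :=
              Real.rpow_le_rpow_of_exponent_le (by norm_num) (by norm_num)
          _ = 2 := Real.rpow_one 2
      have t8 : 0 ≤ (‖1 + ⟪y, x⟫_ℂ‖ / (1 - ‖x‖ ^ 2)) ^ (1 / 8 : ℝ) :=
        Real.rpow_nonneg (div_nonneg hD0.le (by linarith)) _
      have t9 : (1 / ‖1 + ⟪y, x⟫_ℂ‖) ^ J * (‖1 + ⟪y, x⟫_ℂ‖ / (1 - ‖x‖ ^ 2)) ^ (1 / 8 : ℝ) ≤
          2 ^ J * 2 := mul_le_mul t4 t5 t8 (by positivity)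
      rw [div_le_iff₀ hC₁0, hC₁]
      calc Q y ≤ C * Q (gg y x) * ((1 / ‖1 + ⟪y, x⟫_ℂ‖) ^ J *
            (‖1 + ⟪y, x⟫_ℂ‖ / (1 - ‖x‖ ^ 2)) ^ (1 / 8 : ℝ)) := t1
        _ ≤ C * Q (gg y x) * (2 ^ J * 2) := by
            apply mul_le_mul_of_nonneg_left t9 (by positivity)
        _ = Q (gg y x) * (C * (2 ^ J * 2)) := by ring
    have hk := V2_real m J ha hD1 hD2 hb (div_pos hQy hC₁0) hQu
    rw [← ENNReal.ofReal_mul (by positivity), ← ENNReal.ofReal_mul (by positivity)]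
    apply ENNReal.ofReal_le_ofReal
    rw [V2_ker hy1 hx1, norm_gg hy1 hx1.le]
    exact hk
  rw [hVV, ← ENNReal.ofReal_mul (by positivity), ENNReal.ofReal_le_ofReal_iff hP0] at h3
  unfold Om
  rw [← hP]
  have h5 : 0 < (1 - ‖y‖ ^ 2) ^ (1 / 4 : ℝ) := Real.rpow_pos_of_pos ha _
  have h6 : (1 - ‖y‖ ^ 2) ^ (1 / 4 : ℝ) * (1 - ‖y‖ ^ 2) ^ (-(1 / 4 : ℝ)) = 1 := by
    rw [← Real.rpow_add ha, add_neg_cancel, Real.rpow_zero]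
  calc (1 / 2) ^ (m + 3 + J) / C₁ * V * Q y
      = ((1 - ‖y‖ ^ 2) ^ (1 / 4 : ℝ)) * ((1 / 2) ^ (m + 3 + J) *
          (1 - ‖y‖ ^ 2) ^ (-(1 / 4 : ℝ)) * (Q y / C₁) * V) := by
        have e1 : ((1 - ‖y‖ ^ 2) ^ (1 / 4 : ℝ)) * ((1 / 2) ^ (m + 3 + J) *
            (1 - ‖y‖ ^ 2) ^ (-(1 / 4 : ℝ)) * (Q y / C₁) * V) =
            (((1 - ‖y‖ ^ 2) ^ (1 / 4 : ℝ)) * (1 - ‖y‖ ^ 2) ^ (-(1 / 4 : ℝ))) *
              ((1 / 2) ^ (m + 3 + J) / C₁ * V * Q y) := by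
          ring
        rw [e1, h6, one_mul]
    _ ≤ (1 - ‖y‖ ^ 2) ^ (1 / 4 : ℝ) * P := by gcongr

end Pool.Agent.MPca0fc2.VK
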