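import Mathlib
import Pool.Agent.Lib.MP_ca0fc2_an.VK.V2
import Pool.Agent.Lib.MP_ca0fc2_an.TE.B6
import Pool.Agent.Lib.MP_ca0fc2_an.XC.X7

set_option autoImplicit false
set_option linter.unusedSectionVars false

open Metric Set MeasureTheory Filter Topology
open scoped InnerProductSpace ENNReal ContDiff

namespace Pool.Agent.MPca0fc2.VK

open Pool.Agent.MPca0fc2.PT
open Pool.Agent.MPca0fc2.QT
open Pool.Agent.MPca0fc2.TS
open Pool.Agent.MPca0fc2.TE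
open Pool.Agent.MPca0fc2.TK

variable {E : Type*} [NormedAddCommGroup E] [InnerProductSpace ℂ E] [FiniteDimensional ℂ E]
  [MeasurableSpace E] [BorelSpace E]
variable {X : Type*} [NormedAddCommGroup X] [NormedSpace ℂ X] [FiniteDimensional ℂ X]

section aux

variable {V' : Type*} [NormedAddCommGroup V'] [NormedSpace ℂ V']

private theorem V4_D01 (P : E →L[ℂ] E) {S : E → V'} {w : E} (hS : DifferentiableAt ℝ S w)
    (hSP : DifferentiableAt ℝ S (P w)) (v : E) :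
    D01 (fun w => S w - S (P w)) w v = D01 S w v - D01 S (P w) (P v) := by
  have h1 : HasFDerivAt (fun w => S (P w)) ((fderiv ℝ S (P w)).comp (P.restrictScalars ℝ)) w :=
    hSP.hasFDerivAt.comp w (P.restrictScalars ℝ).hasFDerivAt
  have h2 : HasFDerivAt (fun w => S w - S (P w))
      (fderiv ℝ S w - (fderiv ℝ S (P w)).comp (P.restrictScalars ℝ)) w :=
    hS.hasFDerivAt.sub h1
  rw [D01_apply, h2.fderiv, D01_apply, D01_apply]
  simp only [sub_apply, ContinuousLinearMap.comp_apply,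
    ContinuousLinearMap.coe_restrictScalars', map_smul]
  rw [← smul_sub]
  congr 1
  rw [smul_sub]
  abel

private theorem V4_D01s {q : E → ℂ} {S : E → V'} {w : E} (hq : DifferentiableAt ℂ q w)
    (hS : DifferentiableAt ℝ S w) (v : E) :
    D01 (fun w => q w • S w) w v = q w • D01 S w v := by
  have h1 := (hq.restrictScalars ℝ).hasFDerivAt.fun_smul hS.hasFDerivAt
  have h2 : D01 (fun w => q w • S w) w v = q w • D01 S w v + D01 q w v • S w := by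
    rw [D01_apply, D01_apply, D01_apply, h1.fderiv]
    simp only [add_apply, smul_apply, ContinuousLinearMap.smulRight_apply, smul_eq_mul]
    module
  rw [h2, D01_holo hq]
  simp

/-- composition of forms with a linear map -/
private noncomputable def V4_J {V'' : Type*} [NormedAddCommGroup V''] [NormedSpace ℂ V'']
    (e : V' →L[ℂ] V'') (q : ℕ) : (E [⋀^Fin q]→L[ℝ] V') →L[ℝ] (E [⋀^Fin q]→L[ℝ] V'') :=
  ContinuousLinearMap.compContinuousAlternatingMapCLM ℝ E V' V'' (Fin q) (e.restrictScalars ℝ)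

private theorem V4_J_apply {V'' : Type*} [NormedAddCommGroup V''] [NormedSpace ℂ V'']
    (e : V' →L[ℂ] V'') {q : ℕ} (η : E [⋀^Fin q]→L[ℝ] V') (v : Fin q → E) :
    V4_J e q η v = e (η v) := rfl

private theorem V4_db {V'' : Type*} [NormedAddCommGroup V''] [NormedSpace ℂ V'']
    (e : V' →L[ℂ] V'') {q : ℕ} {η : E → E [⋀^Fin q]→L[ℝ] V'} {w : E}
    (h : DifferentiableAt ℝ η w) (h0 : QT.db η w = 0) :
    QT.db (fun w => V4_J e q (η w)) w = 0 := by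
  have h1 : HasFDerivAt (fun w => V4_J e q (η w)) ((V4_J e q).comp (fderiv ℝ η w)) w :=
    (V4_J (E := E) e q).hasFDerivAt.comp w h.hasFDerivAt
  have h2 : ∀ (v : E) (y : Fin q → E), d1 (fun w => V4_J e q (η w)) w v y = e (d1 η w v y) := by
    intro v y
    rw [d1_apply, h1.fderiv, d1_apply]
    simp only [ContinuousLinearMap.comp_apply, V4_J_apply, map_smul, map_add]
  ext x
  have h3 : QT.db (fun w => V4_J e q (η w)) w x = e (QT.db η w x) := by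
    unfold QT.db
    rw [ContinuousAlternatingMap.alternatizeUncurryFin_apply,
      ContinuousAlternatingMap.alternatizeUncurryFin_apply, map_sum]
    refine Finset.sum_congr rfl fun i _ => ?_
    rw [map_zsmul, h2]
  rw [h3, h0]
  simp

private theorem V4_gau {d : ℝ} (hd : 0 ≤ d) (w v : E) : 0 ≤ gau d w v := by
  unfold gau
  positivity

end aux

/-- The case of an inner product space. -/
private theorem V4_inner {V' : Type*} [NormedAddCommGroup V'] [InnerProductSpace ℂ V']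
    [FiniteDimensional ℂ V'] (μ : Measure E) [μ.IsAddHaarMeasure] {m : ℕ} (hm : 1 ≤ m)
    (hdim : Module.finrank ℂ E = m + 1) {θ : ℝ} (h0 : 0 < θ) (h1 : θ < 1) (M J : ℕ) {C : ℝ}
    (hC : 0 < C) :
    ∃ C' : ℝ, 0 < C' ∧ ∀ ν : Measure E, OnB ν → ∀ G : E → ℂ, DifferentiableOn ℂ G (ball 0 1) →
      (∀ z ∈ ball (0 : E) 1, G z ≠ 0) → ∀ Q : E → ℝ, VW J C Q →
      (∀ y ∈ ball (0 : E) 1, Om ν M y ≤ Q y * ‖G y‖) →
      ∀ P : E →L[ℂ] E, Prj P → ∀ k : ℕ, 1 ≤ k →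
      ∀ (B : ℝ) (η : E → E [⋀^Fin 1]→L[ℝ] V'), 0 ≤ B →
      ContDiffOn ℝ 1 η (ball 0 (1 + 3 * θ ^ (k + 1) / 8)) →
      (∀ w ∈ ball (0 : E) (1 + 3 * θ ^ (k + 1) / 8), Anti (η w)) →
      (∀ w ∈ ball (0 : E) (1 + 3 * θ ^ (k + 1) / 8), QT.db η w = 0) →
      BdG θ k (1 + θ ^ (k + 1) / 4) (fun w => B * Wk ν M θ k w) η →
      (∀ w ∈ ball (0 : E) 1, ∀ v, η (P w) (fun _ => P v) = 0) →
      ∃ T : E → V', (∀ w ∈ ball (0 : E) 1, DifferentiableAt ℝ T w) ∧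
        (∀ w ∈ ball (0 : E) 1, ∀ v, D01 T w v = η w (fun _ => v)) ∧
        (∀ w ∈ ball (0 : E) 1, T (P w) = 0) ∧
        ∀ w ∈ ball (0 : E) 1, ‖T w‖ ≤ C' * B * (‖G ((rt θ k : ℂ) • w)‖ *
          (Wk (nuV μ J Q) (m + 2 + J) θ k w + GI (Wk (nuV μ J Q) (m + 2 + J) θ k) P w)) := by
  obtain ⟨a, ha, hlow⟩ := Om_lowV (E := E) μ hm hdim J hC
  obtain ⟨C₂, hC₂, hO⟩ := osc0 (V := V') μ hm hdim h0 h1 (m + 2 + J) (c₀ := θ / 4) (by positivity)
  refine ⟨C₂ / a * (6 * 2 ^ (m + 2 + J + 2)), by positivity, ?_⟩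
  intro ν hν G hG hGz Q hQ hQG P hP k hk B η hB hηc hηa hηd hηb hηp
  have hθk : 0 < θ ^ (k + 1) := pow_pos h0 _
  have hR₁ : 1 + 3 * θ ^ (k + 1) / 8 ≤ RC θ k := by unfold RC; linarith
  have hR₂ : 1 + θ ^ (k + 1) / 4 ≤ RC θ k := by unfold RC; linarith
  have hR₃ : (1 : ℝ) ≤ RC θ k := by unfold RC; linarith
  have hmem : ∀ w : E, ‖w‖ < RC θ k → (rt θ k : ℂ) • w ∈ ball (0 : E) 1 := fun w hw =>
    rt_smul_mem h0 h1 (Nat.le_succ k) hw
  obtain ⟨g, hg⟩ : ∃ g : E → ℂ, g = uk G θ k := ⟨_, rfl⟩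
  have hgw : ∀ w, g w = G ((rt θ k : ℂ) • w) := fun w => by rw [hg]; rfl
  have hgd : DifferentiableOn ℂ g (ball 0 (RC θ k)) := by
    rw [hg]; exact uk_diff h0 h1 hG (Nat.le_succ k)
  have hgda : ∀ w : E, ‖w‖ < RC θ k → DifferentiableAt ℂ g w := fun w hw =>
    hgd.differentiableAt (isOpen_ball.mem_nhds (mem_ball_zero_iff.mpr hw))
  have hgpos : ∀ w : E, ‖w‖ < RC θ k → 0 < ‖g w‖ := by
    intro w hw
    rw [hgw]
    exact norm_pos_iff.mpr (hGz _ (hmem w hw))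
  have hg0 : ∀ w : E, ‖w‖ < RC θ k → g w ≠ 0 := fun w hw => norm_pos_iff.mp (hgpos w hw)
  have hXd : ∀ w : E, ‖w‖ < RC θ k → DifferentiableAt ℂ (fun w => (g w)⁻¹) w := fun w hw =>
    (hgda w hw).inv (hg0 w hw)
  obtain ⟨U, hU⟩ : ∃ U : Set E, U = ball 0 (1 + 3 * θ ^ (k + 1) / 8) := ⟨_, rfl⟩
  have hUR : ∀ w ∈ U, ‖w‖ < RC θ k := fun w hw => by
    rw [hU] at hw
    exact lt_of_lt_of_le (mem_ball_zero_iff.mp hw) hR₁
  have hUo : IsOpen U := by rw [hU]; exact isOpen_ball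
  rw [← hU] at hηc hηa hηd
  obtain ⟨η', hη'⟩ : ∃ η' : E → E [⋀^Fin 1]→L[ℝ] V', η' = fun w => (g w)⁻¹ • η w := ⟨_, rfl⟩
  have hXc : ContDiffOn ℝ 1 (fun w => (g w)⁻¹) U :=
    holo_c1 hUo fun w hw => (hXd w (hUR w hw)).differentiableWithinAt
  have hc' : ContDiffOn ℝ 1 η' U := by
    rw [hη']
    exact ContDiffOn.fun_smul hXc hηc
  have ha' : ∀ w ∈ U, Anti (η' w) := fun w hw => by
    rw [hη']
    exact (hηa w hw).smul _
  have hηdiff : ∀ w ∈ U, DifferentiableAt ℝ η w := fun w hw =>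
    (hηc.contDiffAt (hUo.mem_nhds hw)).differentiableAt (by norm_num)
  have hd' : ∀ w ∈ U, QT.db η' w = 0 := fun w hw => by
    rw [hη', db_smul (hXd w (hUR w hw)) (hηdiff w hw), hηd w hw, smul_zero]
  have hb' : BdG θ k (1 + θ ^ (k + 1) / 4)
      (fun w => B / a * Wk (nuV μ J Q) (m + 2 + J) θ k w) η' := by
    intro w hw v
    have hw' : ‖w‖ < RC θ k := lt_of_lt_of_le hw hR₂
    have hp : 0 ≤ ∏ i, gau (dl θ k w) w (v i) :=
      Finset.prod_nonneg fun i _ => V4_gau (dl_pos h0 h1 hw').le w (v i)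
    have h2 := hηb w hw v
    have h3 := hlow Q hQ _ (hmem w hw')
    rw [← Wk_eq] at h3
    have h4 := hgpos w hw'
    have h5 := hQG _ (hmem w hw')
    rw [← hgw, ← Wk_eq] at h5
    have h6 : Q ((rt θ k : ℂ) • w) ≤ 1 / a * Wk (nuV μ J Q) (m + 2 + J) θ k w := by
      rw [div_mul_eq_mul_div, one_mul, le_div_iff₀ ha, mul_comm]
      exact h3
    have e1 : η' w v = (g w)⁻¹ • η w v := by
      rw [hη']
      rfl
    rw [e1, norm_smul, norm_inv]
    calc ‖g w‖⁻¹ * ‖η w v‖ ≤ ‖g w‖⁻¹ * (B * Wk ν M θ k w *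
          ∏ i, gau (dl θ k w) w (v i)) :=
          mul_le_mul_of_nonneg_left h2 (inv_nonneg.mpr h4.le)
      _ ≤ ‖g w‖⁻¹ * (B * (Q ((rt θ k : ℂ) • w) * ‖g w‖) *
          ∏ i, gau (dl θ k w) w (v i)) := by
          apply mul_le_mul_of_nonneg_left _ (inv_nonneg.mpr h4.le)
          exact mul_le_mul_of_nonneg_right (mul_le_mul_of_nonneg_left h5 hB) hp
      _ = B * Q ((rt θ k : ℂ) • w) * ∏ i, gau (dl θ k w) w (v i) := by
          field_simp
      _ ≤ B * (1 / a * Wk (nuV μ J Q) (m + 2 + J) θ k w) *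
          ∏ i, gau (dl θ k w) w (v i) :=
          mul_le_mul_of_nonneg_right (mul_le_mul_of_nonneg_left h6 hB) hp
      _ = B / a * Wk (nuV μ J Q) (m + 2 + J) θ k w * ∏ i, gau (dl θ k w) w (v i) := by ring
  obtain ⟨S, hSc, hSd, hSo⟩ := hO (nuV μ J Q) (nuV_OnB μ hQ) k (1 + θ ^ (k + 1) / 4) (B / a) η'
    U (by rw [pow_succ]; linarith) hR₂ hUo
    (by rw [hU]; exact closedBall_subset_ball (by linarith)) (by positivity) hc' ha' hd' hb'
  have hSdiff : ∀ w ∈ ball (0 : E) 1, DifferentiableAt ℝ S w := fun w hw =>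
    (hSc.contDiffAt (isOpen_ball.mem_nhds (ball_subset_ball (by
      have : 0 < θ / 4 * θ ^ k := by positivity
      linarith) hw))).differentiableAt (by norm_num)
  have hPball : ∀ w ∈ ball (0 : E) 1, P w ∈ ball (0 : E) 1 := fun w hw =>
    mem_ball_zero_iff.mpr (lt_of_le_of_lt (norm_P_le hP w) (mem_ball_zero_iff.mp hw))
  have hone : ∀ w ∈ ball (0 : E) 1, ‖w‖ < RC θ k := fun w hw =>
    lt_of_lt_of_le (mem_ball_zero_iff.mp hw) hR₃
  have hDd : ∀ w ∈ ball (0 : E) 1, DifferentiableAt ℝ (fun w => S w - S (P w)) w := fun w hw =>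
    (hSdiff w hw).sub ((hSdiff (P w) (hPball w hw)).comp w (P.restrictScalars ℝ).differentiableAt)
  refine ⟨fun w => g w • (S w - S (P w)), ?_, ?_, ?_, ?_⟩
  · intro w hw
    exact ((hgda w (hone w hw)).restrictScalars ℝ).fun_smul (hDd w hw)
  · intro w hw v
    rw [V4_D01s (hgda w (hone w hw)) (hDd w hw), V4_D01 P (hSdiff w hw)
      (hSdiff (P w) (hPball w hw)), hSd w hw, hSd (P w) (hPball w hw)]
    have e1 : η' (P w) (fun _ => P v) = 0 := by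
      have e2 : η' (P w) (fun _ => P v) = (g (P w))⁻¹ • η (P w) (fun _ => P v) := by
        rw [hη']
        rfl
      rw [e2, hηp w hw v, smul_zero]
    have e3 : η' w (fun _ => v) = (g w)⁻¹ • η w (fun _ => v) := by
      rw [hη']
      rfl
    rw [e1, e3, sub_zero, smul_smul, mul_inv_cancel₀ (hg0 w (hone w hw)), one_smul]
  · intro w hw
    show g (P w) • (S (P w) - S (P (P w))) = 0
    rw [hP.idem, sub_self, smul_zero]
  · intro w hw
    have hw' := mem_ball_zero_iff.mp hw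
    have hW : 0 ≤ Wk (nuV μ J Q) (m + 2 + J) θ k w := by
      rw [Wk_eq]
      exact Om_nonneg (mem_ball_zero_iff.mp (hmem w (hone w hw)))
    have hpath := XC.path_osc2 hP (nuV_OnB μ hQ) (m + 2 + J) h0 h1 k (L := C₂ * (B / a))
      (by positivity) hSo hw'
    rw [norm_smul, ← hgw]
    have hx : (2 : ℝ) ^ (m + 2 + J + 2) * Wk (nuV μ J Q) (m + 2 + J) θ k w ≤
        6 * 2 ^ (m + 2 + J + 2) * Wk (nuV μ J Q) (m + 2 + J) θ k w := by
      have : 0 ≤ (2 : ℝ) ^ (m + 2 + J + 2) * Wk (nuV μ J Q) (m + 2 + J) θ k w := by positivity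
      linarith
    have hL : 0 ≤ C₂ * (B / a) := by positivity
    calc ‖g w‖ * ‖S w - S (P w)‖ ≤ ‖g w‖ * (C₂ * (B / a) *
          (2 ^ (m + 2 + J + 2) * Wk (nuV μ J Q) (m + 2 + J) θ k w +
            6 * 2 ^ (m + 2 + J + 2) * GI (Wk (nuV μ J Q) (m + 2 + J) θ k) P w)) :=
          mul_le_mul_of_nonneg_left hpath (norm_nonneg _)
      _ ≤ ‖g w‖ * (C₂ * (B / a) *
          (6 * 2 ^ (m + 2 + J + 2) * Wk (nuV μ J Q) (m + 2 + J) θ k w +
            6 * 2 ^ (m + 2 + J + 2) * GI (Wk (nuV μ J Q) (m + 2 + J) θ k) P w)) := by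
          apply mul_le_mul_of_nonneg_left _ (norm_nonneg _)
          apply mul_le_mul_of_nonneg_left _ hL
          linarith
      _ = C₂ / a * (6 * 2 ^ (m + 2 + J + 2)) * B * (‖g w‖ *
          (Wk (nuV μ J Q) (m + 2 + J) θ k w + GI (Wk (nuV μ J Q) (m + 2 + J) θ k) P w)) := by ring

/-- The solution of `∂̄ T = η` divided by the holomorphic function `g w = G (rt θ k • w)`. Copy of `TK.div_sol` (TK/K5a.lean), with the general weight: `‖η w v‖/‖g w‖ ≤ B Wk ν M θ k w/‖g w‖ ∏ gau ≤ B Q (rt θ k • w) ∏ gau ≤ (B/a) Wk (nuV μ J Q) (m+2+J) θ k w ∏ gau`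
(`Wk_eq`, the hypothesis on `Q` at `y = rt θ k • w`, `Om_lowV`). `nuV_OnB` instead of `nuH_OnB`, `G z ≠ 0` instead of `hH.lo`. -/
theorem div_solV (μ : Measure E) [μ.IsAddHaarMeasure] {m : ℕ} (hm : 1 ≤ m)
    (hdim : Module.finrank ℂ E = m + 1) {θ : ℝ} (h0 : 0 < θ) (h1 : θ < 1) (M J : ℕ) {C : ℝ}
    (hC : 0 < C) :
    ∃ C' : ℝ, 0 < C' ∧ ∀ ν : Measure E, OnB ν → ∀ G : E → ℂ, DifferentiableOn ℂ G (ball 0 1) →
      (∀ z ∈ ball (0 : E) 1, G z ≠ 0) → ∀ Q : E → ℝ, VW J C Q →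
      (∀ y ∈ ball (0 : E) 1, Om ν M y ≤ Q y * ‖G y‖) →
      ∀ P : E →L[ℂ] E, Prj P → ∀ k : ℕ, 1 ≤ k →
      ∀ (B : ℝ) (η : E → E [⋀^Fin 1]→L[ℝ] X), 0 ≤ B →
      ContDiffOn ℝ 1 η (ball 0 (1 + 3 * θ ^ (k + 1) / 8)) →
      (∀ w ∈ ball (0 : E) (1 + 3 * θ ^ (k + 1) / 8), Anti (η w)) →
      (∀ w ∈ ball (0 : E) (1 + 3 * θ ^ (k + 1) / 8), QT.db η w = 0) →
      BdG θ k (1 + θ ^ (k + 1) / 4) (fun w => B * Wk ν M θ k w) η →
      (∀ w ∈ ball (0 : E) 1, ∀ v, η (P w) (fun _ => P v) = 0) →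
      ∃ T : E → X, (∀ w ∈ ball (0 : E) 1, DifferentiableAt ℝ T w) ∧
        (∀ w ∈ ball (0 : E) 1, ∀ v, D01 T w v = η w (fun _ => v)) ∧
        (∀ w ∈ ball (0 : E) 1, T (P w) = 0) ∧
        ∀ w ∈ ball (0 : E) 1, ‖T w‖ ≤ C' * B * (‖G ((rt θ k : ℂ) • w)‖ *
          (Wk (nuV μ J Q) (m + 2 + J) θ k w + GI (Wk (nuV μ J Q) (m + 2 + J) θ k) P w)) := by
  obtain ⟨C', hC', hT⟩ := V4_inner (V' := EuclideanSpace ℂ (Fin (Module.finrank ℂ X))) μ hm hdim
    h0 h1 M J hC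
  obtain ⟨e⟩ : Nonempty (X ≃L[ℂ] EuclideanSpace ℂ (Fin (Module.finrank ℂ X))) :=
    ⟨ContinuousLinearEquiv.ofFinrankEq (by simp)⟩
  obtain ⟨f, hf⟩ : ∃ f : X →L[ℂ] EuclideanSpace ℂ (Fin (Module.finrank ℂ X)),
      f = (e : X →L[ℂ] EuclideanSpace ℂ (Fin (Module.finrank ℂ X))) := ⟨_, rfl⟩
  obtain ⟨f', hf'⟩ : ∃ f' : EuclideanSpace ℂ (Fin (Module.finrank ℂ X)) →L[ℂ] X,
      f' = (e.symm : EuclideanSpace ℂ (Fin (Module.finrank ℂ X)) →L[ℂ] X) := ⟨_, rfl⟩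
  have hff : ∀ x, f' (f x) = x := fun x => by
    rw [hf, hf']
    exact e.symm_apply_apply x
  refine ⟨(‖f'‖ + 1) * C' * (‖f‖ + 1), by positivity, ?_⟩
  intro ν hν G hG hGz Q hQ hQG P hP k hk B η hB hηc hηa hηd hηb hηp
  have hdiff : ∀ w ∈ ball (0 : E) (1 + 3 * θ ^ (k + 1) / 8), DifferentiableAt ℝ η w :=
    fun w hw => (hηc.contDiffAt (isOpen_ball.mem_nhds hw)).differentiableAt (by norm_num)
  obtain ⟨T, hTd, hT01, hTP, hTb⟩ := hT ν hν G hG hGz Q hQ hQG P hP k hk ((‖f‖ + 1) * B)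
    (fun w => V4_J f 1 (η w)) (by positivity)
    ((V4_J (E := E) f 1).contDiff.comp_contDiffOn hηc)
    (by
      intro w hw v i
      rw [V4_J_apply, V4_J_apply, hηa w hw v i, map_neg, map_smul])
    (fun w hw => V4_db f (hdiff w hw) (hηd w hw))
    (by
      intro w hw v
      rw [V4_J_apply]
      calc ‖f (η w v)‖ ≤ ‖f‖ * ‖η w v‖ := f.le_opNorm _
        _ ≤ (‖f‖ + 1) * ‖η w v‖ := by
            apply mul_le_mul_of_nonneg_right _ (norm_nonneg _)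
            linarith
        _ ≤ (‖f‖ + 1) * (B * Wk ν M θ k w * ∏ i, gau (dl θ k w) w (v i)) :=
            mul_le_mul_of_nonneg_left (hηb w hw v) (by positivity)
        _ = (‖f‖ + 1) * B * Wk ν M θ k w * ∏ i, gau (dl θ k w) w (v i) := by ring)
    (by
      intro w hw v
      rw [V4_J_apply, hηp w hw v, map_zero])
  refine ⟨fun w => f' (T w), ?_, ?_, ?_, ?_⟩
  · intro w hw
    exact (f'.restrictScalars ℝ).differentiableAt.comp w (hTd w hw)
  · intro w hw v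
    have h2 : HasFDerivAt (fun w => f' (T w)) ((f'.restrictScalars ℝ).comp (fderiv ℝ T w)) w :=
      (f'.restrictScalars ℝ).hasFDerivAt.comp w (hTd w hw).hasFDerivAt
    have h3 : D01 (fun w => f' (T w)) w v = f' (D01 T w v) := by
      rw [D01_apply, D01_apply, h2.fderiv]
      simp only [ContinuousLinearMap.comp_apply, ContinuousLinearMap.coe_restrictScalars',
        map_smul, map_add]
    rw [h3, hT01 w hw v, V4_J_apply, hff]
  · intro w hw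
    show f' (T (P w)) = 0
    rw [hTP w hw, map_zero]
  · intro w hw
    calc ‖f' (T w)‖ ≤ ‖f'‖ * ‖T w‖ := f'.le_opNorm _
      _ ≤ (‖f'‖ + 1) * ‖T w‖ := by
          apply mul_le_mul_of_nonneg_right _ (norm_nonneg _)
          linarith
      _ ≤ (‖f'‖ + 1) * (C' * ((‖f‖ + 1) * B) * (‖G ((rt θ k : ℂ) • w)‖ *
          (Wk (nuV μ J Q) (m + 2 + J) θ k w + GI (Wk (nuV μ J Q) (m + 2 + J) θ k) P w))) :=
          mul_le_mul_of_nonneg_left (hTb w hw) (by positivity)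
      _ = (‖f'‖ + 1) * C' * (‖f‖ + 1) * B * (‖G ((rt θ k : ℂ) • w)‖ *
          (Wk (nuV μ J Q) (m + 2 + J) θ k w + GI (Wk (nuV μ J Q) (m + 2 + J) θ k) P w)) := by ring

end Pool.Agent.MPca0fc2.VK
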