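import Mathlib
import Pool.Agent.Lib.MP_ca0fc2_an.VK.V4

set_option autoImplicit false
set_option linter.unusedSectionVars false

open Metric Set MeasureTheory Filter Topology
open scoped InnerProductSpace ENNReal ContDiff

namespace Pool.Agent.MPca0fc2.VK

open Pool.Agent.MPca0fc2.PT
open Pool.Agent.MPca0fc2.QT
open Pool.Agent.MPca0fc2.TS
open Pool.Agent.MPca0fc2.TE
open Pool.Agent.MPca0fc2.TK

section aux

variable {E : Type*} [NormedAddCommGroup E] [InnerProductSpace ℂ E]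
variable {V : Type*} [NormedAddCommGroup V] [NormedSpace ℂ V]

private theorem V5_Wk [MeasurableSpace E] (ν : Measure E) (M : ℕ) {θ : ℝ} (h0 : 0 < θ)
    (h1 : θ < 1) (k : ℕ) {w : E} (hw : w ∈ ball (0 : E) 1) : 0 ≤ Wk ν M θ k w := by
  have hz : ‖w‖ < 1 := mem_ball_zero_iff.mp hw
  have h2 : 0 < θ ^ k := pow_pos h0 k
  have h3 : θ ^ k ≤ 1 := pow_le_one₀ h0.le h1.le
  have h4 : rt θ k ^ 2 ≤ 1 := by
    unfold rt
    nlinarith
  have h5 : ‖w‖ ^ 2 ≤ 1 := by nlinarith [norm_nonneg w]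
  have h6 : 0 ≤ dl θ k w := by
    unfold dl
    nlinarith [mul_le_mul h4 h5 (sq_nonneg ‖w‖) zero_le_one]
  unfold Wk
  exact mul_nonneg (Real.rpow_nonneg h6 _) (PP_nonneg _ _ _)

private theorem V5_sum {N : ℕ} (K : Car (Fin N → ℂ) V) (G : (Fin N → ℂ) →L[ℂ] ℂ) (x : V) :
    G (fun j => K.ω (K.c (ContinuousLinearMap.proj j) x)) = K.ω (K.c G x) := by
  have e : G = ∑ j, (G (Pi.single j (1 : ℂ))) • (ContinuousLinearMap.proj j :
      (Fin N → ℂ) →L[ℂ] ℂ) := by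
    ext y
    have hy : y = ∑ j, y j • (Pi.single j (1 : ℂ) : Fin N → ℂ) := by
      ext i
      simp [Finset.sum_apply, Pi.single_apply]
    conv_lhs => rw [hy]
    simp only [map_sum, map_smul, ContinuousLinearMap.sum_apply, ContinuousLinearMap.smul_apply,
      ContinuousLinearMap.proj_apply, smul_eq_mul]
    exact Finset.sum_congr rfl fun j _ => mul_comm _ _
  obtain ⟨a, ha⟩ : ∃ a : Fin N → ℂ, a = fun j => G (Pi.single j (1 : ℂ)) := ⟨_, rfl⟩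
  have e' : G = ∑ j, a j • (ContinuousLinearMap.proj j : (Fin N → ℂ) →L[ℂ] ℂ) := by
    rw [ha]; exact e
  rw [e']
  simp only [map_sum, map_smul, ContinuousLinearMap.sum_apply, ContinuousLinearMap.smul_apply,
    ContinuousLinearMap.proj_apply, smul_eq_mul]

end aux

variable {E : Type*} [NormedAddCommGroup E] [InnerProductSpace ℂ E] [FiniteDimensional ℂ E]
  [MeasurableSpace E] [BorelSpace E]

/-- One level, with a general weight. Copy of `TK.levelH` (TK/K5.lean; also copy its private lemmas, prefix `V5_`), with `div_solV` instead of `div_sol`; the bound `BdG θ k (1 + θ^(k+1)/4) (fun w => C₁ (1 + B) * Wk ν M θ k w) η` is used directly (as in `TE.levelE`, TE/B6.lean), it need not be replaced by a constant. -/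
theorem levelV (μ : Measure E) [μ.IsAddHaarMeasure] {m : ℕ} (hm : 1 ≤ m)
    (hdim : Module.finrank ℂ E = m + 1) (N : ℕ) {θ : ℝ} (h0 : 0 < θ) (h1 : θ < 1) {C₀ : ℝ}
    (hC₀ : 0 < C₀) (M J : ℕ) {C : ℝ} (hC : 0 < C) :
    ∃ C' : ℝ, 0 < C' ∧ ∀ ν : Measure E, OnB ν → ∀ k : ℕ, 1 ≤ k →
      ∀ (P : E →L[ℂ] E) (σ : E → Fin N → ℂ) (F : E → (Fin N → ℂ) →L[ℂ] ℂ),
      LD θ ν M k C₀ P σ F → ∀ G : E → ℂ, DifferentiableOn ℂ G (ball 0 1) →
      (∀ z ∈ ball (0 : E) 1, G z ≠ 0) → ∀ Q : E → ℝ, VW J C Q →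
      (∀ y ∈ ball (0 : E) 1, Om ν M y ≤ Q y * ‖G y‖) → ∃ h : Fin N → E → ℂ,
        (∀ j, DifferentiableOn ℂ (h j) (ball 0 1)) ∧ ∀ w ∈ ball (0 : E) 1,
          F w (fun j => h j w) = 1 ∧ (∀ j, h j (P w) = σ (P w) j) ∧
          ∀ j, ‖h j w‖ ≤ C' * (1 + ‖G ((rt θ k : ℂ) • w)‖ *
            (Wk (nuV μ J Q) (m + 2 + J) θ k w + GI (Wk (nuV μ J Q) (m + 2 + J) θ k) P w)) := by
  obtain ⟨d, ⟨K⟩⟩ := exists_carI N
  obtain ⟨B, hB, hD⟩ := descentE (V := EuclideanSpace ℂ (Fin d)) μ hm hdim K h0 h1 hC₀ M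
  obtain ⟨C₁, hC₁, hZ⟩ := Zs_bd (E := E) (V := EuclideanSpace ℂ (Fin d)) K h0 h1 hC₀ M 0
  obtain ⟨C₂, hC₂, hO⟩ := div_solV (X := EuclideanSpace ℂ (Fin d)) μ hm hdim h0 h1 M J hC
  have hKc : 0 ≤ ‖K.c‖ := K.c.opNorm_nonneg
  have hKa : 0 ≤ ‖K.a‖ := K.a.opNorm_nonneg
  have hKω : 0 ≤ ‖K.ω‖ := K.ω.opNorm_nonneg
  obtain ⟨L, hL⟩ : ∃ L : ℝ, L = C₂ * (C₁ * (1 + B)) := ⟨_, rfl⟩
  have hL0 : 0 ≤ L := by rw [hL]; positivity
  obtain ⟨Qc, hQ⟩ : ∃ Qc : ℝ, Qc = ‖K.a‖ * C₀ * ‖K.Ω‖ + ‖K.c‖ * C₀ * L := ⟨_, rfl⟩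
  have hQ0 : 0 ≤ Qc := by rw [hQ]; positivity
  refine ⟨‖K.ω‖ * ‖K.c‖ * Qc + 1, by positivity, ?_⟩
  intro ν hν k hk P σ F hLD G₀ hG₀d hG₀0 Q hVW hOm
  obtain ⟨W₁, W₂, hW1c, hW1, hW1b⟩ := hD ν hν k hk P σ F hLD
  have hθk : 0 < θ ^ (k + 1) := pow_pos h0 _
  have hR₁ : 1 + 3 * θ ^ (k + 1) / 8 ≤ RC θ k := by unfold RC; linarith
  have hR₂ : 1 + θ ^ (k + 1) / 4 ≤ RC θ k := by unfold RC; linarith
  have hone : ∀ z ∈ ball (0 : E) 1, ‖z‖ < RC θ k := fun z hz =>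
    lt_of_lt_of_le (mem_ball_zero_iff.mp hz) (by linarith)
  obtain ⟨η, hη⟩ : ∃ η : E → E [⋀^Fin 1]→L[ℝ] (EuclideanSpace ℂ (Fin d)),
      η = Zs (r := 0) K σ F W₁ := ⟨_, rfl⟩
  have hηc : ContDiffOn ℝ 1 η (ball 0 (1 + 3 * θ ^ (k + 1) / 8)) := by
    rw [hη]; exact Zs_c1 hLD hR₁ hW1c
  have hηa : ∀ w ∈ ball (0 : E) (1 + 3 * θ ^ (k + 1) / 8), Anti (η w) := fun w hw => by
    rw [hη]; exact Zs_anti (hW1 w hw).1
  have hηd : ∀ w ∈ ball (0 : E) (1 + 3 * θ ^ (k + 1) / 8), QT.db η w = 0 := fun w hw => by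
    rw [hη]
    refine Zs_closed (W' := W₂) hLD (lt_of_lt_of_le (mem_ball_zero_iff.mp hw) hR₁) ?_
      (hW1 w hw).2.1
    exact (hW1c.contDiffAt (isOpen_ball.mem_nhds hw)).differentiableAt (by norm_num)
  have hηb : BdG θ k (1 + θ ^ (k + 1) / 4) (fun w => C₁ * (1 + B) * Wk ν M θ k w) η := by
    intro w hw v
    rw [hη]
    exact hZ ν k P σ F hLD _ B W₁ hR₁ hB.le hW1b w (by linarith) v
  have hηp : ∀ w ∈ ball (0 : E) 1, ∀ v, η (P w) (fun _ => P v) = 0 := fun w hw v => by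
    have hw' : w ∈ ball (0 : E) (1 + 3 * θ ^ (k + 1) / 8) :=
      ball_subset_ball (by linarith) hw
    have h2 := Zs_pbk (K := K) (W := W₁) hLD (hone w hw) (hW1 w hw').2.2
    rw [← hη] at h2
    have h3 := pbk_apply P η w (fun _ => v)
    rw [h2] at h3
    exact h3.symm
  obtain ⟨T, hTd, hT01, hTP, hTb⟩ := hO ν hν G₀ hG₀d hG₀0 Q hVW hOm P hLD.prj k hk (C₁ * (1 + B)) η
    (by positivity) hηc hηa hηd hηb hηp
  obtain ⟨W, hW0, hWW1⟩ : ∃ W : (r : ℕ) → E → E [⋀^Fin r]→L[ℝ] (EuclideanSpace ℂ (Fin d)),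
      (W 0 = fun w => cst E (T w)) ∧ W 1 = W₁ :=
    ⟨fun r => match r with
      | 0 => fun w => cst E (T w)
      | 1 => W₁
      | _ + 2 => fun _ => 0, rfl, rfl⟩
  have hW0d : ∀ z ∈ ball (0 : E) 1, DifferentiableAt ℝ (W 0) z := by
    intro z hz
    rw [hW0]
    exact (cstL E (EuclideanSpace ℂ (Fin d))).differentiableAt.comp z (hTd z hz)
  have hPd : ∀ z ∈ ball (0 : E) 1, QT.db (QT.Ph K σ F W) z = 0 := by
    intro z hz
    apply db_Ph K (hLD.sol z (hone z hz)) (hW0d z hz)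
    rw [hW0, hWW1]
    ext v
    rw [db_cst (hTd z hz), hT01 z hz, hη]
    have ev : (fun _ => v 0) = v := funext fun i => by
      rw [show i = 0 from Subsingleton.elim (α := Fin 1) i 0]
    rw [ev]
    rfl
  have hHd : DifferentiableOn ℂ
      (fun w => evz E (EuclideanSpace ℂ (Fin d)) (QT.Ph K σ F W w)) (ball 0 1) := by
    intro z hz
    exact (holo_of_db (Ph_diff K (hLD.sol z (hone z hz)) (hW0d z hz))
      (hPd z hz)).differentiableWithinAt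
  obtain ⟨H, hH⟩ : ∃ H : E → EuclideanSpace ℂ (Fin d), H = fun w =>
    evz E (EuclideanSpace ℂ (Fin d)) (QT.Ph K σ F W w) := ⟨_, rfl⟩
  rw [← hH] at hHd
  obtain ⟨e₀, he₀⟩ : ∃ e₀ : Fin 0 → E, e₀ = fun i => i.elim0 := ⟨_, rfl⟩
  have hHv : ∀ z, H z = QT.Ph K σ F W z e₀ := by
    intro z
    rw [hH]
    exact evz_apply _ _
  have hHe : ∀ z, H z = K.a (σ z) K.Ω - K.c (F z) (T z) := by
    intro z
    rw [hHv z]
    unfold QT.Ph
    rw [ContinuousAlternatingMap.sub_apply, opc_apply, hW0]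
    rfl
  refine ⟨fun j z => K.ω (K.c (ContinuousLinearMap.proj j) (H z)), ?_, ?_⟩
  · intro j
    exact K.ω.differentiable.comp_differentiableOn
      ((K.c (ContinuousLinearMap.proj j)).differentiable.comp_differentiableOn hHd)
  · intro z hz
    have hz1 : ‖z‖ < 1 := mem_ball_zero_iff.mp hz
    refine ⟨?_, ?_, ?_⟩
    · rw [V5_sum]
      have h1 := c_Ph K (W := W) (hLD.sol z (hone z hz)) e₀
      rw [← hHv z] at h1
      rw [h1]
      exact K.ωΩ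
    · intro j
      have hT0 : T (P z) = 0 := hTP z hz
      have h2 := K.ca (ContinuousLinearMap.proj j) (σ (P z)) K.Ω
      rw [K.cΩ, map_zero, add_zero] at h2
      simp only [hHe, hT0, map_zero, sub_zero]
      rw [h2, map_smul, K.ωΩ, smul_eq_mul, mul_one]
      rfl
    · intro j
      have hWk0 : ∀ y ∈ ball (0 : E) 1, 0 ≤ Wk (nuV μ J Q) (m + 2 + J) θ k y := fun y hy =>
        V5_Wk _ _ h0 h1 k hy
      have hG0 : 0 ≤ GI (Wk (nuV μ J Q) (m + 2 + J) θ k) P z := GI_nonneg hLD.prj hWk0 hz1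
      have t3 : ‖T z‖ ≤ L * (‖G₀ ((rt θ k : ℂ) • z)‖ *
          (Wk (nuV μ J Q) (m + 2 + J) θ k z + GI (Wk (nuV μ J Q) (m + 2 + J) θ k) P z)) := by
        rw [hL]
        exact hTb z hz
      have hX0 : 0 ≤ ‖G₀ ((rt θ k : ℂ) • z)‖ *
          (Wk (nuV μ J Q) (m + 2 + J) θ k z + GI (Wk (nuV μ J Q) (m + 2 + J) θ k) P z) :=
        mul_nonneg (norm_nonneg _) (add_nonneg (hWk0 z hz) hG0)
      obtain ⟨X, hX⟩ : ∃ X : ℝ, X = ‖G₀ ((rt θ k : ℂ) • z)‖ *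
          (Wk (nuV μ J Q) (m + 2 + J) θ k z + GI (Wk (nuV μ J Q) (m + 2 + J) θ k) P z) := ⟨_, rfl⟩
      rw [← hX] at t3 hX0 ⊢
      have h2 : ‖H z‖ ≤ Qc * (1 + X) := by
        rw [hHe z]
        have b1 : ‖K.a (σ z) K.Ω‖ ≤ ‖K.a‖ * C₀ * ‖K.Ω‖ := by
          refine ((K.a (σ z)).le_opNorm _).trans ?_
          apply mul_le_mul_of_nonneg_right _ (norm_nonneg _)
          refine (K.a.le_opNorm _).trans ?_
          exact mul_le_mul_of_nonneg_left (hLD.sb z (hone z hz)) hKa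
        have b2 : ‖K.c (F z) (T z)‖ ≤ ‖K.c‖ * C₀ * (L * X) := by
          refine ((K.c (F z)).le_opNorm _).trans ?_
          apply mul_le_mul _ t3 (norm_nonneg _) (by positivity)
          exact (K.c.le_opNorm _).trans (mul_le_mul_of_nonneg_left (hLD.Fb z (hone z hz)) hKc)
        calc _ ≤ ‖K.a (σ z) K.Ω‖ + ‖K.c (F z) (T z)‖ := norm_sub_le _ _
          _ ≤ ‖K.a‖ * C₀ * ‖K.Ω‖ + ‖K.c‖ * C₀ * (L * X) := add_le_add b1 b2
          _ ≤ ‖K.a‖ * C₀ * ‖K.Ω‖ + ‖K.c‖ * C₀ * (L * X) +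
              (‖K.a‖ * C₀ * ‖K.Ω‖ * X + ‖K.c‖ * C₀ * L) :=
              le_add_of_nonneg_right (by positivity)
          _ = _ := by rw [hQ]; ring
      calc ‖K.ω (K.c (ContinuousLinearMap.proj j) (H z))‖
          ≤ ‖K.ω‖ * ‖K.c (ContinuousLinearMap.proj j) (H z)‖ := K.ω.le_opNorm _
        _ ≤ ‖K.ω‖ * (‖K.c‖ * (Qc * (1 + X))) := by
            apply mul_le_mul_of_nonneg_left _ hKω
            refine ((K.c (ContinuousLinearMap.proj j)).le_opNorm _).trans ?_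
            apply mul_le_mul _ h2 (norm_nonneg _) hKc
            refine (K.c.le_opNorm _).trans ?_
            calc ‖K.c‖ * ‖(ContinuousLinearMap.proj j : (Fin N → ℂ) →L[ℂ] ℂ)‖ ≤ ‖K.c‖ * 1 :=
                  mul_le_mul_of_nonneg_left (QS.proj_norm j) hKc
              _ = ‖K.c‖ := mul_one _
        _ = ‖K.ω‖ * ‖K.c‖ * Qc * (1 + X) := by ring
        _ ≤ _ := by
            gcongr
            linarith

end Pool.Agent.MPca0fc2.VK
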