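import Mathlib
import Pool.Agent.Lib.MP_ca0fc2_an.VK.V1
import Pool.Agent.Lib.MP_ca0fc2_an.TE.OscK
import Pool.Agent.Lib.MP_ca0fc2_an.PV.A2

set_option autoImplicit false
set_option linter.unusedSectionVars false

open Metric Set MeasureTheory Filter Topology
open scoped InnerProductSpace ENNReal ContDiff

namespace Pool.Agent.MPca0fc2.VK

open Pool.Agent.MPca0fc2.PT
open Pool.Agent.MPca0fc2.QT
open Pool.Agent.MPca0fc2.TS
open Pool.Agent.MPca0fc2.TE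
open Pool.Agent.MPca0fc2.TK

variable {E : Type*} [NormedAddCommGroup E] [InnerProductSpace ℂ E] [FiniteDimensional ℂ E]
  [MeasurableSpace E] [BorelSpace E]

private lemma V3_geo {x y : E} (hx : ‖x‖ < 1) (hy : ‖y‖ < 1) : 0 < ‖1 - ⟪x, y⟫_ℂ‖ := by
  have h1 : ‖⟪x, y⟫_ℂ‖ ≤ ‖x‖ * ‖y‖ := norm_inner_le_norm x y
  have h2 : (1 : ℝ) - ‖⟪x, y⟫_ℂ‖ ≤ ‖1 - ⟪x, y⟫_ℂ‖ := by
    have h3 := norm_sub_norm_le (1 : ℂ) ⟪x, y⟫_ℂ
    rw [norm_one] at h3
    exact h3
  have hx0 := norm_nonneg x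
  have hy0 := norm_nonneg y
  have h4 : ‖x‖ * ‖y‖ ≤ ‖x‖ := by nlinarith
  linarith

/-- Upper bound. Pattern: `TK.Om_upH` (TK/K3.lean) and `SH.Om_cls` (SH/H2.lean). By `osc` the integrand `(1 - ‖x‖²)^J Q x ‖1 - ⟪x, y⟫‖^(-(m+2+J) - 1/4)` is at most `C Q y (1 - ‖y‖²)^(-1/8) ‖1 - ⟪x, y⟫‖^(-(m+2) - 1/8)`, and `PV.pv_ker` (PV/A2.lean) with `c = 1/8`:
`Om ≤ C Q y (1 - ‖y‖²)^(1/4 - 1/8 - 1/8) const`. -/
theorem Om_upV (μ : Measure E) [μ.IsAddHaarMeasure] {m : ℕ} (hm : 1 ≤ m)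
    (hdim : Module.finrank ℂ E = m + 1) (J : ℕ) {C : ℝ} (hC : 0 < C) :
    ∃ A : ℝ, 0 < A ∧ ∀ Q : E → ℝ, VW J C Q → ∀ y ∈ ball (0 : E) 1,
      Om (nuV μ J Q) (m + 2 + J) y ≤ A * Q y := by
  obtain ⟨K, hK, hKer⟩ := PV.pv_ker (E := E) μ hm hdim (c := 1 / 8) (by norm_num) (by norm_num)
  refine ⟨C * K, by positivity, ?_⟩
  intro Q hQ y hy
  have hy1 := mem_ball_zero_iff.mp hy
  have ht : 0 < 1 - ‖y‖ ^ 2 := by nlinarith [norm_nonneg y]
  have hQy := hQ.pos y hy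
  set T : ℝ := (1 - ‖y‖ ^ 2) ^ (-(1 / 8 : ℝ)) with hT
  have hT0 : 0 < T := Real.rpow_pos_of_pos ht _
  have hcF : Continuous fun x : E => ‖1 - ⟪x, y⟫_ℂ‖ := by fun_prop
  have hmeas : AEMeasurable (fun x : E => (1 - ‖x‖ ^ 2) ^ J * Q x *
      ‖1 - ⟪x, y⟫_ℂ‖ ^ (-(((m + 2 + J : ℕ) : ℝ) + 1 / 4))) (μ.restrict (ball 0 1)) := by
    have h0 : Measurable fun x : E => (1 - ‖x‖ ^ 2) ^ J :=
      (measurable_const.sub (measurable_norm.pow_const 2)).pow_const J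
    have h1 : AEMeasurable (fun x : E => Q x) (μ.restrict (ball 0 1)) :=
      hQ.cont.aemeasurable measurableSet_ball
    have h2 : Measurable fun x : E => ‖1 - ⟪x, y⟫_ℂ‖ ^ (-(((m + 2 + J : ℕ) : ℝ) + 1 / 4)) :=
      hcF.measurable.pow_const _
    exact (h0.aemeasurable.mul h1).mul h2.aemeasurable
  have hPP : PP (nuV μ J Q) (((m + 2 + J : ℕ) : ℝ) + 1 / 4) y ≤ C * Q y * T * (K * T) := by
    rw [PP_nuV μ hQ, integral_eq_lintegral_of_nonneg_ae ?_ hmeas.aestronglyMeasurable]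
    · apply ENNReal.toReal_le_of_le_ofReal (by positivity)
      calc _ ≤ ∫⁻ x in ball (0 : E) 1, ENNReal.ofReal (C * Q y * T) *
            ENNReal.ofReal (‖1 - ⟪x, y⟫_ℂ‖ ^ (-((m : ℝ) + 2 + 1 / 8))) ∂μ := by
            refine setLIntegral_mono' measurableSet_ball fun x hx => ?_
            have hosc := hQ.osc x hx y hy
            have hx1 := mem_ball_zero_iff.mp hx
            have h0 : 0 < 1 - ‖x‖ ^ 2 := by nlinarith [norm_nonneg x]
            have hD := V3_geo hx1 hy1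
            rw [← ENNReal.ofReal_mul (by positivity)]
            apply ENNReal.ofReal_le_ofReal
            set D : ℝ := ‖1 - ⟪x, y⟫_ℂ‖ with hDd
            have e1 : (1 - ‖x‖ ^ 2) ^ J * Q x ≤ C * Q y * (D ^ J * (D ^ (1 / 8 : ℝ) * T)) := by
              calc (1 - ‖x‖ ^ 2) ^ J * Q x ≤ (1 - ‖x‖ ^ 2) ^ J * (C * Q y *
                    ((D / (1 - ‖x‖ ^ 2)) ^ J * (D / (1 - ‖y‖ ^ 2)) ^ (1 / 8 : ℝ))) :=
                    mul_le_mul_of_nonneg_left hosc (by positivity)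
                _ = C * Q y * (((1 - ‖x‖ ^ 2) ^ J * (D / (1 - ‖x‖ ^ 2)) ^ J) *
                    (D / (1 - ‖y‖ ^ 2)) ^ (1 / 8 : ℝ)) := by ring
                _ = C * Q y * (D ^ J * (D ^ (1 / 8 : ℝ) * T)) := by
                    rw [← mul_pow, mul_div_cancel₀ D h0.ne', Real.div_rpow hD.le ht.le, hT,
                      Real.rpow_neg ht.le]
                    rfl
            have e2 : D ^ J * (D ^ (1 / 8 : ℝ) * T) *
                D ^ (-(((m + 2 + J : ℕ) : ℝ) + 1 / 4)) = T * D ^ (-((m : ℝ) + 2 + 1 / 8)) := by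
              have f1 : D ^ J = D ^ (J : ℝ) := (Real.rpow_natCast D J).symm
              have f2 : D ^ (J : ℝ) * D ^ (1 / 8 : ℝ) * D ^ (-(((m + 2 + J : ℕ) : ℝ) + 1 / 4)) =
                  D ^ (-((m : ℝ) + 2 + 1 / 8)) := by
                rw [← Real.rpow_add hD, ← Real.rpow_add hD]
                congr 1
                push_cast
                ring
              rw [f1]
              calc _ = T * (D ^ (J : ℝ) * D ^ (1 / 8 : ℝ) *
                    D ^ (-(((m + 2 + J : ℕ) : ℝ) + 1 / 4))) := by ring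
                _ = _ := by rw [f2]
            calc (1 - ‖x‖ ^ 2) ^ J * Q x * D ^ (-(((m + 2 + J : ℕ) : ℝ) + 1 / 4)) ≤
                C * Q y * (D ^ J * (D ^ (1 / 8 : ℝ) * T)) *
                  D ^ (-(((m + 2 + J : ℕ) : ℝ) + 1 / 4)) :=
                  mul_le_mul_of_nonneg_right e1 (Real.rpow_nonneg hD.le _)
              _ = C * Q y * (D ^ J * (D ^ (1 / 8 : ℝ) * T) *
                  D ^ (-(((m + 2 + J : ℕ) : ℝ) + 1 / 4))) := by ring
              _ = C * Q y * T * D ^ (-((m : ℝ) + 2 + 1 / 8)) := by rw [e2]; ring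
        _ = ENNReal.ofReal (C * Q y * T) * ∫⁻ x in ball (0 : E) 1,
            ENNReal.ofReal (‖1 - ⟪x, y⟫_ℂ‖ ^ (-((m : ℝ) + 2 + 1 / 8))) ∂μ := by
            rw [lintegral_const_mul']
            exact ENNReal.ofReal_ne_top
        _ ≤ ENNReal.ofReal (C * Q y * T) * ENNReal.ofReal (K * T) :=
            mul_le_mul_right (hKer y hy) _
        _ = ENNReal.ofReal (C * Q y * T * (K * T)) := by
            rw [← ENNReal.ofReal_mul (by positivity)]
    · refine (ae_restrict_iff' measurableSet_ball).mpr (Eventually.of_forall fun x hx => ?_)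
      have hx1 := mem_ball_zero_iff.mp hx
      have h0 : 0 < 1 - ‖x‖ ^ 2 := by nlinarith [norm_nonneg x]
      have hq := hQ.pos x hx
      have hD := V3_geo hx1 hy1
      show (0 : ℝ) ≤ _
      positivity
  have e3 : (1 - ‖y‖ ^ 2) ^ (1 / 4 : ℝ) * (T * T) = 1 := by
    rw [hT, ← Real.rpow_add ht, ← Real.rpow_add ht]
    norm_num
  unfold Om
  calc (1 - ‖y‖ ^ 2) ^ (1 / 4 : ℝ) * PP (nuV μ J Q) (((m + 2 + J : ℕ) : ℝ) + 1 / 4) y
      ≤ (1 - ‖y‖ ^ 2) ^ (1 / 4 : ℝ) * (C * Q y * T * (K * T)) :=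
        mul_le_mul_of_nonneg_left hPP (by positivity)
    _ = C * K * Q y * ((1 - ‖y‖ ^ 2) ^ (1 / 4 : ℝ) * (T * T)) := by ring
    _ = C * K * Q y := by rw [e3, mul_one]

end Pool.Agent.MPca0fc2.VK
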