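import Mathlib
import Pool.Agent.Lib.MP_ca0fc2_an.VK.V3
import Pool.Agent.Lib.MP_ca0fc2_an.TE.G6

set_option autoImplicit false
set_option linter.unusedSectionVars false

open Metric Set MeasureTheory Filter Topology
open scoped InnerProductSpace ENNReal ContDiff

namespace Pool.Agent.MPca0fc2.VK

open Pool.Agent.MPca0fc2.PT
open Pool.Agent.MPca0fc2.QT
open Pool.Agent.MPca0fc2.TS
open Pool.Agent.MPca0fc2.TE
open Pool.Agent.MPca0fc2.TK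

variable {E : Type*} [NormedAddCommGroup E] [InnerProductSpace ℂ E] [FiniteDimensional ℂ E]
  [MeasurableSpace E] [BorelSpace E]

private theorem V6a_path {P : E →L[ℂ] E} (h : Prj P) {z : E} (hz : ‖z‖ < 1) {t : ℝ} (h0 : 0 ≤ t)
    (h1 : t ≤ 1) : ‖pt P t z‖ < 1 ∧ 1 - ‖z‖ ^ 2 ≤ 1 - ‖pt P t z‖ ^ 2 := by
  obtain ⟨a1, a2, a3, _⟩ := Dp_anti h hz le_rfl h0 h1
  have e := Dp_eq h t z
  have h2 : 1 - ‖z‖ ^ 2 ≤ 1 - ‖pt P t z‖ ^ 2 := by rw [e, ← a2]; exact a3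
  refine ⟨?_, h2⟩
  have h3 : 0 < 1 - ‖z‖ ^ 2 := by rw [← a2]; exact a1
  nlinarith [norm_nonneg (pt P t z)]

private theorem V6a_ker {P : E →L[ℂ] E} (hP : Prj P) {z : E} (hz : ‖z‖ < 1) :
    (∀ t ∈ Icc (0 : ℝ) 1, 0 ≤ rr P z / (1 - t ^ 2 * rr P z ^ 2)) ∧
      ContinuousOn (fun t : ℝ => rr P z / (1 - t ^ 2 * rr P z ^ 2)) (Icc 0 1) := by
  obtain ⟨hr0, hr1, hb, _, _⟩ := rr_facts hP hz 1
  have hr2 : 0 < 1 - rr P z ^ 2 := by nlinarith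
  have hk : ∀ t ∈ Icc (0 : ℝ) 1, 0 < 1 - t ^ 2 * rr P z ^ 2 := by
    intro t ht
    have ht2 : t ^ 2 ≤ 1 := by nlinarith [ht.1, ht.2]
    have h1 : t ^ 2 * rr P z ^ 2 ≤ 1 * rr P z ^ 2 := mul_le_mul_of_nonneg_right ht2 (sq_nonneg _)
    linarith
  refine ⟨fun t ht => div_nonneg hr0 (hk t ht).le, ?_⟩
  refine ContinuousOn.div continuousOn_const ?_ fun t ht => (hk t ht).ne'
  exact (by fun_prop : Continuous fun t : ℝ => 1 - t ^ 2 * rr P z ^ 2).continuousOn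

/-- `Om_upV` on the path, integrated. Both integrands are continuous on `[0, 1]` (`Om_cont` with `nuV_OnB`, `hQ.cont`; the path stays in the ball and the kernel is continuous as `rr P z < 1`: see the proof of `TK.GI_H`, TK/K4b.lean). -/
theorem GI_upV (μ : Measure E) [μ.IsAddHaarMeasure] {m : ℕ} (hm : 1 ≤ m)
    (hdim : Module.finrank ℂ E = m + 1) (J : ℕ) {C : ℝ} (hC : 0 < C) :
    ∃ A : ℝ, 0 < A ∧ ∀ Q : E → ℝ, VW J C Q → ∀ P : E →L[ℂ] E, Prj P → ∀ z ∈ ball (0 : E) 1,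
      Om (nuV μ J Q) (m + 2 + J) z + GI (Om (nuV μ J Q) (m + 2 + J)) P z ≤
        A * (Q z + GI Q P z) := by
  obtain ⟨A, hA, hOm⟩ := Om_upV μ hm hdim J hC
  refine ⟨A, hA, ?_⟩
  intro Q hQ P hP z hzb
  have hz : ‖z‖ < 1 := mem_ball_zero_iff.1 hzb
  obtain ⟨hker0, hkerc⟩ := V6a_ker hP hz
  have hν : OnB (nuV μ J Q) := nuV_OnB μ hQ
  have hpt : ∀ t ∈ Icc (0 : ℝ) 1, pt P t z ∈ ball (0 : E) 1 := fun t ht =>
    mem_ball_zero_iff.2 (V6a_path hP hz ht.1 ht.2).1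
  have hptc : Continuous fun t : ℝ => pt P t z := by
    unfold pt
    exact continuous_const.add ((Complex.continuous_ofReal).smul continuous_const)
  have hc1 : ContinuousOn (fun t : ℝ => Om (nuV μ J Q) (m + 2 + J) (pt P t z)) (Icc 0 1) :=
    (Om_cont hν (m + 2 + J)).comp hptc.continuousOn hpt
  have hc2 : ContinuousOn (fun t : ℝ => Q (pt P t z)) (Icc 0 1) :=
    hQ.cont.comp hptc.continuousOn hpt
  have hi1 : IntegrableOn (fun t : ℝ => Om (nuV μ J Q) (m + 2 + J) (pt P t z) *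
      (rr P z / (1 - t ^ 2 * rr P z ^ 2))) (Icc 0 1) :=
    (hc1.mul hkerc).integrableOn_compact isCompact_Icc
  have hi2 : IntegrableOn (fun t : ℝ => A * (Q (pt P t z) *
      (rr P z / (1 - t ^ 2 * rr P z ^ 2)))) (Icc 0 1) :=
    (continuousOn_const.mul (hc2.mul hkerc)).integrableOn_compact isCompact_Icc
  have hGI : GI (Om (nuV μ J Q) (m + 2 + J)) P z ≤ A * GI Q P z := by
    unfold GI
    rw [← MeasureTheory.integral_const_mul]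
    refine MeasureTheory.setIntegral_mono_on hi1 hi2 measurableSet_Icc fun t ht => ?_
    rw [← mul_assoc]
    exact mul_le_mul_of_nonneg_right (hOm Q hQ _ (hpt t ht)) (hker0 t ht)
  rw [mul_add]
  exact add_le_add (hOm Q hQ z hzb) hGI

/-- Local bound, uniform in the level. Pattern: `TK.loc_H` (TK/K4b.lean). For `y = pt P t z` and `y = z`: `Wk ν M θ k y = Om ν M (rt θ k • y) ≤ A Q (rt θ k • y) ≤ A C Q 0 (1/(1 - ‖y‖²))^J` (`Wk_eq`, `Om_upV`, `osc` with `y := 0`), `‖y‖ ≤ ‖z‖`, the kernel of `GI` is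
`≤ 1/(1 - ‖z‖²)`, and `‖G (rt θ k • z)‖ ≤ c (1/(1 - ‖z‖²))^a`. -/
theorem locV (μ : Measure E) [μ.IsAddHaarMeasure] {m : ℕ} (hm : 1 ≤ m)
    (hdim : Module.finrank ℂ E = m + 1) {θ : ℝ} (h0 : 0 < θ) (h1 : θ < 1) (J : ℕ) {C : ℝ}
    (hC : 0 < C) {G : E → ℂ}
    (hG : ∃ (a : ℕ) (c : ℝ), ∀ z ∈ ball (0 : E) 1, ‖G z‖ ≤ c * (1 / (1 - ‖z‖ ^ 2)) ^ a)
    {Q : E → ℝ} (hQ : VW J C Q) :
    ∃ (a : ℕ) (c : ℝ), ∀ P : E →L[ℂ] E, Prj P → ∀ k : ℕ, ∀ z ∈ ball (0 : E) 1,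
      ‖G ((rt θ k : ℂ) • z)‖ * (Wk (nuV μ J Q) (m + 2 + J) θ k z +
        GI (Wk (nuV μ J Q) (m + 2 + J) θ k) P z) ≤ c * (1 / (1 - ‖z‖ ^ 2)) ^ a := by
  obtain ⟨A, hA, hOm⟩ := Om_upV μ hm hdim J hC
  obtain ⟨a, c, hGa⟩ := hG
  have h0b : (0 : E) ∈ ball (0 : E) 1 := mem_ball_self one_pos
  have hQ0 : 0 < Q 0 := hQ.pos 0 h0b
  have hc0 : 0 ≤ c := by
    have h2 := hGa 0 h0b
    rw [norm_zero] at h2
    have h3 : c * (1 / (1 - (0 : ℝ) ^ 2)) ^ a = c := by norm_num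
    rw [h3] at h2
    exact (norm_nonneg _).trans h2
  set B : ℝ := A * (C * Q 0) with hB
  have hB0 : 0 ≤ B := by positivity
  refine ⟨a + (J + 1), c * (2 * B), ?_⟩
  intro P hP k z hzb
  have hz : ‖z‖ < 1 := mem_ball_zero_iff.1 hzb
  have hD : 0 < 1 - ‖z‖ ^ 2 := by nlinarith [norm_nonneg z]
  have hD1 : 1 - ‖z‖ ^ 2 ≤ 1 := by nlinarith [sq_nonneg ‖z‖]
  have hθ0 : 0 ≤ θ ^ k := pow_nonneg h0.le k
  have hθ1 : θ ^ k ≤ 1 := pow_le_one₀ h0.le h1.le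
  have hrt : 0 ≤ rt θ k ∧ rt θ k ≤ 1 := by
    unfold rt
    constructor <;> linarith
  have hsm : ∀ y : E, ‖((rt θ k : ℂ) • y)‖ ≤ ‖y‖ := by
    intro y
    rw [norm_smul, Complex.norm_real, Real.norm_eq_abs, abs_of_nonneg hrt.1]
    exact mul_le_of_le_one_left (norm_nonneg _) hrt.2
  have hinv : ∀ y : E, ‖y‖ < 1 → 1 - ‖z‖ ^ 2 ≤ 1 - ‖y‖ ^ 2 →
      1 / (1 - ‖((rt θ k : ℂ) • y)‖ ^ 2) ≤ 1 / (1 - ‖z‖ ^ 2) ∧
        0 < 1 - ‖((rt θ k : ℂ) • y)‖ ^ 2 := by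
    intro y hy hyz
    have h2 : ‖((rt θ k : ℂ) • y)‖ ^ 2 ≤ ‖y‖ ^ 2 := by
      have := hsm y
      gcongr
    have h3 : 1 - ‖z‖ ^ 2 ≤ 1 - ‖((rt θ k : ℂ) • y)‖ ^ 2 := by linarith
    exact ⟨one_div_le_one_div_of_le hD h3, lt_of_lt_of_le hD h3⟩
  set q : ℝ := 1 / (1 - ‖z‖ ^ 2) with hq
  have hq0 : 0 < q := by positivity
  have hq1 : 1 ≤ q := by
    rw [hq, le_div_iff₀ hD]
    linarith
  have hW : ∀ y : E, ‖y‖ < 1 → 1 - ‖z‖ ^ 2 ≤ 1 - ‖y‖ ^ 2 →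
      0 ≤ Wk (nuV μ J Q) (m + 2 + J) θ k y ∧ Wk (nuV μ J Q) (m + 2 + J) θ k y ≤ B * q ^ J := by
    intro y hy hyz
    have h3 : ((rt θ k : ℂ) • y) ∈ ball (0 : E) 1 :=
      mem_ball_zero_iff.2 (lt_of_le_of_lt (hsm y) hy)
    rw [Wk_eq]
    refine ⟨Om_nonneg (mem_ball_zero_iff.1 h3), ?_⟩
    obtain ⟨h4, h4'⟩ := hinv y hy hyz
    have h5 := hQ.osc _ h3 0 h0b
    rw [inner_zero_right, sub_zero, norm_one, norm_zero] at h5
    have h6 : (1 / (1 - (0 : ℝ) ^ 2)) ^ (1 / 8 : ℝ) = 1 := by norm_num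
    rw [h6, mul_one] at h5
    have h7 : (1 / (1 - ‖((rt θ k : ℂ) • y)‖ ^ 2)) ^ J ≤ q ^ J :=
      pow_le_pow_left₀ (by positivity) h4 J
    calc Om (nuV μ J Q) (m + 2 + J) ((rt θ k : ℂ) • y) ≤ A * Q ((rt θ k : ℂ) • y) :=
          hOm Q hQ _ h3
      _ ≤ A * (C * Q 0 * (1 / (1 - ‖((rt θ k : ℂ) • y)‖ ^ 2)) ^ J) :=
          mul_le_mul_of_nonneg_left h5 hA.le
      _ ≤ A * (C * Q 0 * q ^ J) := by
          apply mul_le_mul_of_nonneg_left _ hA.le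
          exact mul_le_mul_of_nonneg_left h7 (by positivity)
      _ = B * q ^ J := by rw [hB]; ring
  have hC0 : 0 ≤ B * q ^ J := by positivity
  obtain ⟨hr0, hr1, hb, _, _⟩ := rr_facts hP hz 1
  have hDe : (1 - ‖P z‖ ^ 2) * (1 - rr P z ^ 2) = 1 - ‖z‖ ^ 2 := by
    have g1 := (rr_facts hP hz 1).2.2.2.2
    have g2 := (Dp_anti hP hz le_rfl zero_le_one le_rfl).2.1
    rw [g2, one_pow, one_mul] at g1
    exact g1.symm
  have hr2 : 0 < 1 - rr P z ^ 2 := by nlinarith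
  have hDr : 1 - ‖z‖ ^ 2 ≤ 1 - rr P z ^ 2 := by
    rw [← hDe]
    apply mul_le_of_le_one_left hr2.le
    nlinarith [sq_nonneg ‖P z‖]
  have hGI : GI (Wk (nuV μ J Q) (m + 2 + J) θ k) P z ≤ B * q ^ J * q := by
    unfold GI
    have hb1 : ∀ t ∈ Icc (0 : ℝ) 1, ‖Wk (nuV μ J Q) (m + 2 + J) θ k (pt P t z) *
        (rr P z / (1 - t ^ 2 * rr P z ^ 2))‖ ≤ B * q ^ J * q := by
      intro t ht
      obtain ⟨g1, g2⟩ := V6a_path hP hz ht.1 ht.2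
      obtain ⟨w0, w1⟩ := hW _ g1 g2
      have ht2 : t ^ 2 ≤ 1 := by nlinarith [ht.1, ht.2]
      have k1 : t ^ 2 * rr P z ^ 2 ≤ 1 * rr P z ^ 2 := mul_le_mul_of_nonneg_right ht2 (sq_nonneg _)
      have k2 : 1 - ‖z‖ ^ 2 ≤ 1 - t ^ 2 * rr P z ^ 2 := by linarith
      have k3 : 0 ≤ rr P z / (1 - t ^ 2 * rr P z ^ 2) := div_nonneg hr0 (by linarith)
      have k4 : rr P z / (1 - t ^ 2 * rr P z ^ 2) ≤ q :=
        div_le_div₀ zero_le_one hr1.le hD k2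
      rw [norm_mul, Real.norm_of_nonneg w0, Real.norm_of_nonneg k3]
      exact mul_le_mul w1 k4 k3 hC0
    have h9 := MeasureTheory.norm_setIntegral_le_of_norm_le_const (μ := volume) (s := Icc (0 : ℝ) 1)
      (by simp) hb1
    have h10 : volume.real (Icc (0 : ℝ) 1) = 1 := by simp [Measure.real]
    rw [h10, mul_one] at h9
    exact (Real.le_norm_self _).trans h9
  have hGz : ‖G ((rt θ k : ℂ) • z)‖ ≤ c * q ^ a := by
    have h3 : ((rt θ k : ℂ) • z) ∈ ball (0 : E) 1 :=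
      mem_ball_zero_iff.2 (lt_of_le_of_lt (hsm z) hz)
    obtain ⟨h4, h4'⟩ := hinv z hz le_rfl
    refine (hGa _ h3).trans (mul_le_mul_of_nonneg_left ?_ hc0)
    exact pow_le_pow_left₀ (by positivity) h4 a
  obtain ⟨w0, w1⟩ := hW z hz le_rfl
  have hsum : Wk (nuV μ J Q) (m + 2 + J) θ k z + GI (Wk (nuV μ J Q) (m + 2 + J) θ k) P z ≤
      2 * B * q ^ (J + 1) := by
    have hq2 : B * q ^ J ≤ B * q ^ J * q := le_mul_of_one_le_right (by positivity) hq1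
    rw [pow_succ]
    nlinarith
  have hnn : 0 ≤ 2 * B * q ^ (J + 1) := by positivity
  calc ‖G ((rt θ k : ℂ) • z)‖ * (Wk (nuV μ J Q) (m + 2 + J) θ k z +
        GI (Wk (nuV μ J Q) (m + 2 + J) θ k) P z)
      ≤ ‖G ((rt θ k : ℂ) • z)‖ * (2 * B * q ^ (J + 1)) :=
        mul_le_mul_of_nonneg_left hsum (norm_nonneg _)
    _ ≤ c * q ^ a * (2 * B * q ^ (J + 1)) := mul_le_mul_of_nonneg_right hGz hnn
    _ = c * (2 * B) * q ^ (a + (J + 1)) := by rw [pow_add]; ring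

end Pool.Agent.MPca0fc2.VK
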