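import Mathlib
import Pool.Agent.Lib.MP_ca0fc2_an.VK.D1
import Pool.Agent.Lib.MP_ca0fc2_an.CGInv
import Pool.Agent.Lib.MP_ca0fc2_an.DACls

set_option autoImplicit false
set_option linter.unusedSectionVars false

open Metric Set MeasureTheory Filter Topology
open scoped InnerProductSpace ENNReal ContDiff

namespace Pool.Agent.MPca0fc2.VK

open Pool.Agent.MPca0fc2.PT
open Pool.Agent.MPca0fc2.QT
open Pool.Agent.MPca0fc2.TS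
open Pool.Agent.MPca0fc2.TE
open Pool.Agent.MPca0fc2.TK

variable {E : Type*} [NormedAddCommGroup E] [InnerProductSpace ℂ E] [FiniteDimensional ℂ E]
  [MeasurableSpace E] [BorelSpace E]

/-- The identity of the kernel: `1 - ⟪gg a x, gg a y⟫ = (1 - ‖a‖²)(1 - ⟪x, y⟫)/((1 + ⟪x, a⟫)(1 + ⟪a, y⟫))` also for `‖x‖ = 1` or `‖y‖ = 1`; see `inner_gg`, `norm_gg`, `gg_neg_gg`, `gg_lt` (PTGeo.lean), `TK.gg_*` (TK/T1.lean). Hence for `‖x‖ ≤ 1`, `‖y‖ ≤ 1`: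
`(1 - ‖a‖)/4 * ‖1 - ⟪x, y⟫‖ ≤ ‖1 - ⟪gg a x, gg a y⟫‖ ≤ 2/(1 - ‖a‖) * ‖1 - ⟪x, y⟫‖`-like bounds. -/
theorem ker_gg {a : E} (ha : ‖a‖ < 1) : ∃ C : ℝ, 1 ≤ C ∧ ∀ x y : E, ‖x‖ ≤ 1 → ‖y‖ ≤ 1 →
    ‖1 - ⟪gg a x, gg a y⟫_ℂ‖ ≤ C * ‖1 - ⟪x, y⟫_ℂ‖ ∧
      ‖1 - ⟪x, y⟫_ℂ‖ ≤ C * ‖1 - ⟪gg a x, gg a y⟫_ℂ‖ := by
  have hD : 0 < 1 - ‖a‖ ^ 2 := by nlinarith [norm_nonneg a]
  have hD1 : 1 - ‖a‖ ^ 2 ≤ 1 := by nlinarith [norm_nonneg a]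
  refine ⟨4 / (1 - ‖a‖ ^ 2), ?_, ?_⟩
  · rw [le_div_iff₀ hD]; linarith
  intro x y hx hy
  have h := inner_gg (z := a) ha hx hy
  have hn : ‖1 - ⟪gg a x, gg a y⟫_ℂ‖ =
      (1 - ‖a‖ ^ 2) * ‖1 - ⟪x, y⟫_ℂ‖ / (‖1 + ⟪x, a⟫_ℂ‖ * ‖1 + ⟪a, y⟫_ℂ‖) := by
    rw [h, norm_div, norm_mul, norm_mul, Complex.norm_real, Real.norm_of_nonneg hD.le]
  have hlow : ∀ w : ℂ, ‖w‖ ≤ ‖a‖ → 1 - ‖a‖ ≤ ‖1 + w‖ ∧ ‖1 + w‖ ≤ 2 := by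
    intro w hw
    constructor
    · have h1 : ‖(1 : ℂ)‖ ≤ ‖1 + w‖ + ‖w‖ := by
        have := norm_sub_le (1 + w) w
        simpa using this
      rw [norm_one] at h1
      linarith
    · have := norm_add_le (1 : ℂ) w
      rw [norm_one] at this
      linarith
  have hw1 : ‖⟪x, a⟫_ℂ‖ ≤ ‖a‖ := by
    refine (norm_inner_le_norm x a).trans ?_
    nlinarith [norm_nonneg a]
  have hw2 : ‖⟪a, y⟫_ℂ‖ ≤ ‖a‖ := by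
    refine (norm_inner_le_norm a y).trans ?_
    nlinarith [norm_nonneg a]
  obtain ⟨l1, u1⟩ := hlow _ hw1
  obtain ⟨l2, u2⟩ := hlow _ hw2
  set r1 := ‖1 + ⟪x, a⟫_ℂ‖
  set r2 := ‖1 + ⟪a, y⟫_ℂ‖
  set t := ‖1 - ⟪x, y⟫_ℂ‖
  have ht : 0 ≤ t := norm_nonneg _
  have ha0 : 0 < 1 - ‖a‖ := by linarith
  have hr1 : 0 < r1 := lt_of_lt_of_le ha0 l1
  have hr2 : 0 < r2 := lt_of_lt_of_le ha0 l2
  have hrr : 0 < r1 * r2 := mul_pos hr1 hr2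
  rw [hn]
  have hlo : (1 - ‖a‖) ^ 2 ≤ r1 * r2 := by nlinarith
  have hup : r1 * r2 ≤ 4 := by nlinarith
  constructor
  · rw [div_mul_eq_mul_div, div_le_div_iff₀ hrr hD]
    have h3 : (1 - ‖a‖ ^ 2) * (1 - ‖a‖ ^ 2) ≤ 4 * (r1 * r2) := by
      have h4 : (1 - ‖a‖ ^ 2) = (1 - ‖a‖) * (1 + ‖a‖) := by ring
      have h5 : (1 - ‖a‖ ^ 2) * (1 - ‖a‖ ^ 2) ≤ 4 * (1 - ‖a‖) ^ 2 := by
        rw [h4]
        have h6 : (1 + ‖a‖) ^ 2 ≤ 4 := by nlinarith [norm_nonneg a]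
        nlinarith [sq_nonneg (1 - ‖a‖)]
      linarith
    nlinarith
  · rw [div_mul_div_comm, le_div_iff₀ (mul_pos hD hrr)]
    nlinarith [mul_nonneg ht hD.le]

/-- `gg (-a)` is the inverse of `gg a` on the closed ball (`gg_neg_gg`), both preserve the sphere (`norm_gg`), and `ker_gg`. -/
theorem dk_gg {a : E} (ha : ‖a‖ < 1) : ∃ C : ℝ, 1 ≤ C ∧ ∀ K : Set E, K ⊆ sphere 0 1 → K.Nonempty →
    gg (-a) '' K ⊆ sphere 0 1 ∧ ∀ z : E, ‖z‖ < 1 →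
      dk (gg (-a) '' K) z ≤ C * dk K (gg a z) ∧ 1 - ‖gg a z‖ ^ 2 ≤ C * (1 - ‖z‖ ^ 2) := by
  obtain ⟨C, hC1, hC⟩ := ker_gg ha
  refine ⟨C, hC1, ?_⟩
  intro K hKs hKn
  have ha' : ‖-a‖ < 1 := by rwa [norm_neg]
  refine ⟨?_, ?_⟩
  · rintro _ ⟨ζ, hζ, rfl⟩
    have h1 : ‖ζ‖ = 1 := by simpa using hKs hζ
    have h2 := norm_gg ha' h1.le
    rw [h1] at h2
    have h3 : ‖gg (-a) ζ‖ ^ 2 = 1 := by
      have : (1 - ‖-a‖ ^ 2) * (1 - (1 : ℝ) ^ 2) / ‖1 + ⟪-a, ζ⟫_ℂ‖ ^ 2 = 0 := by simp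
      linarith
    have h4 : ‖gg (-a) ζ‖ = 1 := by
      nlinarith [norm_nonneg (gg (-a) ζ)]
    simpa using h4
  intro z hz
  constructor
  · have hbd : BddBelow ((fun ζ => ‖1 - ⟪ζ, z⟫_ℂ‖) '' (gg (-a) '' K)) :=
      ⟨0, by rintro _ ⟨_, _, rfl⟩; exact norm_nonneg _⟩
    have key : ∀ ζ ∈ K, dk (gg (-a) '' K) z ≤ C * ‖1 - ⟪ζ, gg a z⟫_ℂ‖ := by
      intro ζ hζ
      have h1 : ‖ζ‖ = 1 := by simpa using hKs hζ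
      have h2 : dk (gg (-a) '' K) z ≤ ‖1 - ⟪gg (-a) ζ, z⟫_ℂ‖ :=
        csInf_le hbd ⟨gg (-a) ζ, ⟨ζ, hζ, rfl⟩, rfl⟩
      have h3 := (hC (gg (-a) ζ) z (gg_le ha' h1.le) hz.le).2
      rw [CG.gg_gg_neg ha h1.le] at h3
      exact h2.trans h3
    have hC0 : 0 < C := lt_of_lt_of_le one_pos hC1
    have h4 : dk (gg (-a) '' K) z / C ≤ dk K (gg a z) := by
      refine le_csInf (hKn.image _) ?_
      rintro _ ⟨ζ, hζ, rfl⟩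
      rw [div_le_iff₀ hC0, mul_comm]
      exact key ζ hζ
    rw [div_le_iff₀ hC0] at h4
    linarith
  · have h1 := (hC z z hz.le hz.le).1
    have e1 : ‖1 - ⟪gg a z, gg a z⟫_ℂ‖ = 1 - ‖gg a z‖ ^ 2 := by
      rw [geo_self]
      have h2 : 0 ≤ 1 - ‖gg a z‖ ^ 2 := by nlinarith [gg_lt ha hz, norm_nonneg (gg a z)]
      rw [show (1 : ℂ) - ((‖gg a z‖ ^ 2 : ℝ) : ℂ) = ((1 - ‖gg a z‖ ^ 2 : ℝ) : ℂ) by push_cast; ring,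
        Complex.norm_real, Real.norm_of_nonneg h2]
    have e2 : ‖1 - ⟪z, z⟫_ℂ‖ = 1 - ‖z‖ ^ 2 := by
      rw [geo_self]
      have h2 : 0 ≤ 1 - ‖z‖ ^ 2 := by nlinarith [norm_nonneg z]
      rw [show (1 : ℂ) - ((‖z‖ ^ 2 : ℝ) : ℂ) = ((1 - ‖z‖ ^ 2 : ℝ) : ℂ) by push_cast; ring,
        Complex.norm_real, Real.norm_of_nonneg h2]
    rw [e1, e2] at h1
    exact h1

end Pool.Agent.MPca0fc2.VK
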