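import Mathlib
import Pool.Agent.Lib.MP_ca0fc2_an.VK.Defs
import Pool.Agent.Lib.MP_ca0fc2_an.XC.SE
import Pool.Agent.Lib.MP_ca0fc2_an.XC.AD

set_option autoImplicit false
set_option linter.unusedSectionVars false

open Metric Set MeasureTheory Filter Topology
open scoped InnerProductSpace ENNReal ContDiff

namespace Pool.Agent.MPca0fc2.VK


/-- Solutions on linear slices. `d = Module.finrank ℂ V`. If `d ≤ 1`: `Pool.Agent.MPca0fc2SE.result` (XC/SE.lean; `M = n + 1`, `a = 0`, second part) gives `h` with `h j` bounded on `V ∩ ball` (its bound `dist` at `z = w`; see the lemmas `line_growth`, `sol_bd` in the file /team-store/MP_ca0fc2_TK_final.tgz,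
`Results/MP_ca0fc2_an/GeodesicTubes.lean`); take `g = h`. If `d ≥ 2`: as in the proof of `complex_tfae`, `3 → 1`, in the same file: `ι : EuclideanSpace ℂ (Fin d) ≃ₗᵢ V`, `hQ` for `f j ∘ ι` gives bounded `g₀` on the ball of dimension `d`, `g j v = g₀ j (ι.symm (projection of v))`. -/
theorem slice_g {n N : ℕ} (hn : 2 ≤ n) {f : Fin N → EuclideanSpace ℂ (Fin n) → ℂ}
    (hf : ∀ j, DifferentiableOn ℂ (f j) (ball 0 1)) {δ : ℝ} (hδ : 0 < δ)
    (hb : ∀ z ∈ ball (0 : EuclideanSpace ℂ (Fin n)) 1,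
      δ ≤ ∑ j, ‖f j z‖ ^ 2 ∧ ∑ j, ‖f j z‖ ^ 2 ≤ 1)
    (V : Submodule ℂ (EuclideanSpace ℂ (Fin n)))
    (hQ : 2 ≤ Module.finrank ℂ V → Pool.Agent.MPca0fc2AD.Q1On N
      (ball (0 : EuclideanSpace ℂ (Fin (Module.finrank ℂ V))) 1)) :
    ∃ (A : ℝ) (g : Fin N → EuclideanSpace ℂ (Fin n) → ℂ),
      (∀ j, DifferentiableOn ℂ (fun z => g j (V.starProjection z)) (ball 0 1)) ∧
      ∀ z ∈ ball (0 : EuclideanSpace ℂ (Fin n)) 1,
        ∑ j, f j (V.starProjection z) * g j (V.starProjection z) = 1 ∧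
          ∑ j, ‖g j (V.starProjection z)‖ ^ 2 ≤ A ^ 2 := by
  have hPn : ∀ z : EuclideanSpace ℂ (Fin n), ‖V.starProjection z‖ ≤ ‖z‖ :=
    fun z => V.norm_starProjection_apply_le z
  have hPmap : ∀ z ∈ ball (0 : EuclideanSpace ℂ (Fin n)) 1,
      V.starProjection z ∈ ball (0 : EuclideanSpace ℂ (Fin n)) 1 := by
    intro z hz
    rw [mem_ball_zero_iff] at hz ⊢
    exact (hPn z).trans_lt hz
  have hPdiff : DifferentiableOn ℂ (fun z => V.starProjection z)
      (ball (0 : EuclideanSpace ℂ (Fin n)) 1) :=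
    V.starProjection.differentiable.differentiableOn
  rcases Nat.lt_or_ge 1 (Module.finrank ℂ V) with h2 | h1
  · obtain ⟨ι⟩ : Nonempty (EuclideanSpace ℂ (Fin (Module.finrank ℂ V)) ≃ₗᵢ[ℂ] V) :=
      ⟨(stdOrthonormalBasis ℂ V).repr.symm⟩
    have hι : ∀ x ∈ ball (0 : EuclideanSpace ℂ (Fin (Module.finrank ℂ V))) 1,
        ((ι x : V) : EuclideanSpace ℂ (Fin n)) ∈ ball (0 : EuclideanSpace ℂ (Fin n)) 1 := by
      intro x hx
      rw [mem_ball_zero_iff] at hx ⊢
      have e : ‖((ι x : V) : EuclideanSpace ℂ (Fin n))‖ = ‖ι x‖ := rfl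
      rw [e, LinearIsometryEquiv.norm_map]
      exact hx
    have hιd : DifferentiableOn ℂ (fun x => ((ι x : V) : EuclideanSpace ℂ (Fin n)))
        (ball (0 : EuclideanSpace ℂ (Fin (Module.finrank ℂ V))) 1) :=
      ((V.subtypeL.comp (ι.toContinuousLinearEquiv :
        EuclideanSpace ℂ (Fin (Module.finrank ℂ V)) →L[ℂ] V)).differentiable).differentiableOn
    obtain ⟨h, hh, hsol⟩ := hQ h2 (fun j x => f j ((ι x : V) : EuclideanSpace ℂ (Fin n)))
      (fun j => ⟨(hf j).comp hιd hι, 1, fun x hx => by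
        have h3 := (hb _ (hι x hx)).2
        have h4 : ‖f j ((ι x : V) : EuclideanSpace ℂ (Fin n))‖ ^ 2 ≤
            ∑ j, ‖f j ((ι x : V) : EuclideanSpace ℂ (Fin n))‖ ^ 2 :=
          Finset.single_le_sum
            (f := fun j => ‖f j ((ι x : V) : EuclideanSpace ℂ (Fin n))‖ ^ 2)
            (fun _ _ => sq_nonneg _) (Finset.mem_univ j)
        nlinarith [norm_nonneg (f j ((ι x : V) : EuclideanSpace ℂ (Fin n)))]⟩)
      ⟨δ, hδ, fun x hx => (hb _ (hι x hx)).1⟩
    choose hd B hB using hh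
    obtain ⟨L, hL⟩ : ∃ L : EuclideanSpace ℂ (Fin n) →L[ℂ]
        EuclideanSpace ℂ (Fin (Module.finrank ℂ V)),
        L = (ι.symm.toContinuousLinearEquiv :
          V →L[ℂ] EuclideanSpace ℂ (Fin (Module.finrank ℂ V))).comp
            V.orthogonalProjectionOnto := ⟨_, rfl⟩
    have hLe : ∀ z, L z = ι.symm (V.orthogonalProjectionOnto z) := by
      intro z
      rw [hL]
      rfl
    have hLn : ∀ z, ‖L z‖ ≤ ‖z‖ := by
      intro z
      rw [hLe, LinearIsometryEquiv.norm_map]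
      exact V.norm_orthogonalProjectionOnto_apply_le z
    have hLmap : ∀ z ∈ ball (0 : EuclideanSpace ℂ (Fin n)) 1,
        L z ∈ ball (0 : EuclideanSpace ℂ (Fin (Module.finrank ℂ V))) 1 := fun z hz =>
      mem_ball_zero_iff.2 ((hLn _).trans_lt (mem_ball_zero_iff.1 hz))
    have hιL : ∀ z, ((ι (L (V.starProjection z)) : V) : EuclideanSpace ℂ (Fin n)) =
        V.starProjection z := by
      intro z
      rw [hLe, ι.apply_symm_apply]
      exact Submodule.starProjection_eq_self_iff.2 (V.starProjection_apply_mem z)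
    refine ⟨∑ j, |B j|, fun j z => h j (L z), fun j => ?_, fun z hz => ⟨?_, ?_⟩⟩
    · have e1 : DifferentiableOn ℂ (fun z => L (V.starProjection z))
          (ball (0 : EuclideanSpace ℂ (Fin n)) 1) :=
        (L.comp V.starProjection).differentiable.differentiableOn
      exact (hd j).comp e1 fun z hz => hLmap _ (hPmap z hz)
    · have h3 := hsol _ (hLmap _ (hPmap z hz))
      simp only [hιL] at h3
      exact h3
    · have h4 : ∀ j, ‖h j (L (V.starProjection z))‖ ≤ |B j| := fun j =>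
        (hB j _ (hLmap _ (hPmap z hz))).trans (le_abs_self _)
      exact (Finset.sum_le_sum fun j _ => pow_le_pow_left₀ (norm_nonneg _) (h4 j) 2).trans
        (Finset.sum_sq_le_sq_sum_of_nonneg fun j _ => abs_nonneg _)
  · obtain ⟨C, hC, h3⟩ := Pool.Agent.MPca0fc2SE.result (N := N) (M := n + 1) hn le_rfl hδ
      (A := 1) one_pos
    obtain ⟨h, hh⟩ := (h3 f hf hb V 0 (by simp)).2.1 h1
    refine ⟨C, h, fun j => (hh.holo j).comp hPdiff hPmap, fun z hz =>
      ⟨hh.sol _ (hPmap z hz), ?_⟩⟩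
    have hw := mem_ball_zero_iff.1 (hPmap z hz)
    have h4 := hh.dist _ (hPmap z hz) ⟨V.starProjection z, V.starProjection_apply_mem z⟩
      (by simpa using hw)
    simp only [zero_add] at h4
    have h6 : 0 < 1 - ‖V.starProjection z‖ ^ 2 := by
      nlinarith [norm_nonneg (V.starProjection z)]
    have h7 : (1 : ℂ) - ⟪V.starProjection z, V.starProjection z⟫_ℂ =
        ((1 - ‖V.starProjection z‖ ^ 2 : ℝ) : ℂ) := by
      rw [inner_self_eq_norm_sq_to_K]
      push_cast
      rfl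
    have h5 : ‖1 - ⟪V.starProjection z, V.starProjection z⟫_ℂ‖ ^ 2 /
        ((1 - ‖V.starProjection z‖ ^ 2) * (1 - ‖V.starProjection z‖ ^ 2)) = 1 := by
      rw [h7, Complex.norm_real, Real.norm_of_nonneg h6.le]
      field_simp
    rw [h5, Real.log_one, add_zero, mul_one] at h4
    exact (Real.sqrt_le_left hC.le).1 h4

end Pool.Agent.MPca0fc2.VK
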