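import Mathlib
import Pool.Agent.Lib.MP_ca0fc2_an.VK.E3
import Pool.Agent.Lib.MP_ca0fc2_an.TE.Aff

set_option autoImplicit false
set_option linter.unusedSectionVars false

open Metric Set MeasureTheory Filter Topology
open scoped InnerProductSpace ENNReal ContDiff

namespace Pool.Agent.MPca0fc2.VK

open Pool.Agent.MPca0fc2.PT
open Pool.Agent.MPca0fc2.QT
open Pool.Agent.MPca0fc2.TS
open Pool.Agent.MPca0fc2.TE
open Pool.Agent.MPca0fc2.TK

variable {E : Type*} [NormedAddCommGroup E] [InnerProductSpace ℂ E] [FiniteDimensional ℂ E]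
  [MeasurableSpace E] [BorelSpace E]

/-- Affine subspaces which meet the ball are mapped to linear ones. Let `a` be the point of `S` closest to `0` (`‖a‖ ≤ ‖x₀‖ < 1`, `a ⟂ S.direction`, `P a = 0` for `P` the orthogonal projection onto `S.direction`; e.g. `a = x₀ - P x₀`), `S = a + S.direction`. `TE.gg_perp` (TE/Aff.lean): `gg a (P x) = a + P (ss a • x)`, so
`gg a` maps `S.direction` onto `S` (`ss a > 0`); with `gg_neg_gg` (`gg (-a)` is the inverse of `gg a` on the closed ball) the claim follows for `‖ζ‖ ≤ 1`. -/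
theorem affine_aut {S : AffineSubspace ℂ E} {x₀ : E} (hx₀ : x₀ ∈ S) (hx : ‖x₀‖ < 1) :
    ∃ a : E, ‖a‖ < 1 ∧ ∀ ζ : E, ‖ζ‖ ≤ 1 → (ζ ∈ S ↔ gg (-a) ζ ∈ S.direction) := by
  set D := S.direction with hD
  set P : E →L[ℂ] E := D.starProjection with hPdef
  have hPmem : ∀ x, P x ∈ D := fun x => Submodule.starProjection_apply_mem D x
  have hPfix : ∀ x ∈ D, P x = x := fun x hx => Submodule.starProjection_eq_self_iff.mpr hx
  have hP : Prj P := by
    constructor
    · intro x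
      exact hPfix _ (hPmem x)
    · intro x y
      exact Submodule.inner_starProjection_left_eq_right D x y
  have hPa : P (x₀ - P x₀) = 0 := by
    rw [map_sub, hPfix _ (hPmem x₀), sub_self]
  have hna : ‖x₀ - P x₀‖ ≤ ‖x₀‖ := by
    have horth : ⟪x₀ - P x₀, P x₀⟫_ℂ = 0 := by rw [← hP.sa, hPa, inner_zero_left]
    have h1 := norm_add_sq_eq_norm_sq_add_norm_sq_of_inner_eq_zero (𝕜 := ℂ) (x₀ - P x₀) (P x₀) horth
    rw [sub_add_cancel] at h1
    nlinarith [norm_nonneg (x₀ - P x₀), norm_nonneg x₀, mul_self_nonneg ‖P x₀‖]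
  have ha : ‖x₀ - P x₀‖ < 1 := lt_of_le_of_lt hna hx
  have haS : x₀ - P x₀ ∈ S := by
    have h1 : -(P x₀) +ᵥ x₀ ∈ S :=
      AffineSubspace.vadd_mem_of_mem_direction (D.neg_mem (hPmem x₀)) hx₀
    have h2 : x₀ - P x₀ = -(P x₀) +ᵥ x₀ := by rw [vadd_eq_add]; abel
    rw [h2]
    exact h1
  refine ⟨x₀ - P x₀, ha, ?_⟩
  generalize x₀ - P x₀ = a at hPa ha haS
  clear hna
  intro ζ hζ
  have hs := geo_ss_pos ha
  have hsq := geo_ss_sq ha.le
  have hs0 : (ss a : ℂ) ≠ 0 := by exact_mod_cast hs.ne'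
  constructor
  · intro hζS
    have hd : ζ - a ∈ D := by
      have := AffineSubspace.vsub_mem_direction hζS haS
      simpa using this
    have hd' : P (ζ - a) = ζ - a := hPfix _ hd
    have horth : ⟪a, ζ - a⟫_ℂ = 0 := by
      rw [← hd', ← hP.sa, hPa, inner_zero_left]
    have h1 := norm_add_sq_eq_norm_sq_add_norm_sq_of_inner_eq_zero (𝕜 := ℂ) a (ζ - a) horth
    rw [add_sub_cancel] at h1
    have hy : ‖((ss a : ℂ))⁻¹ • (ζ - a)‖ ≤ 1 := by
      rw [norm_smul, norm_inv, Complex.norm_real, Real.norm_of_nonneg hs.le, inv_mul_le_iff₀ hs,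
        mul_one]
      nlinarith [norm_nonneg (ζ - a), norm_nonneg ζ, norm_nonneg a]
    have e1 : gg a (((ss a : ℂ))⁻¹ • (ζ - a)) = ζ := by
      have e2 : P (((ss a : ℂ))⁻¹ • (ζ - a)) = ((ss a : ℂ))⁻¹ • (ζ - a) := by
        rw [map_smul, hd']
      have e3 := TE.gg_perp hP hPa (((ss a : ℂ))⁻¹ • (ζ - a))
      rw [e2, smul_smul, mul_inv_cancel₀ hs0, one_smul, hd'] at e3
      rw [e3]
      abel
    have e4 := gg_neg_gg ha hy
    rw [e1] at e4
    rw [e4]
    exact D.smul_mem _ hd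
  · intro hζD
    have e1 := CG.gg_gg_neg ha hζ
    have e2 := TE.gg_perp hP hPa (gg (-a) ζ)
    rw [hPfix _ hζD, e1] at e2
    rw [e2]
    have h1 : P ((ss a : ℂ) • gg (-a) ζ) +ᵥ a ∈ S :=
      AffineSubspace.vadd_mem_of_mem_direction (hPmem _) haS
    rw [vadd_eq_add, add_comm] at h1
    exact h1

end Pool.Agent.MPca0fc2.VK
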