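import Mathlib
import Pool.Agent.Lib.MP_ca0fc2_an.VK.D1
import Pool.Agent.Lib.MP_ca0fc2_an.VK.D3
import Pool.Agent.Lib.MP_ca0fc2_an.TK.K4b

set_option autoImplicit false
set_option linter.unusedSectionVars false

open Metric Set MeasureTheory Filter Topology
open scoped InnerProductSpace ENNReal ContDiff

namespace Pool.Agent.MPca0fc2.VK

open Pool.Agent.MPca0fc2.PT
open Pool.Agent.MPca0fc2.QT
open Pool.Agent.MPca0fc2.TS
open Pool.Agent.MPca0fc2.TE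
open Pool.Agent.MPca0fc2.TK

variable {E : Type*} [NormedAddCommGroup E] [InnerProductSpace ℂ E]

private theorem D4_mem {P : E →L[ℂ] E} (h : Prj P) {z : E} (hz : ‖z‖ < 1) {t : ℝ}
    (ht : t ∈ Icc (0 : ℝ) 1) : pt P t z ∈ ball (0 : E) 1 := by
  have e1 := Dp_eq h t z
  obtain ⟨_, e2, e3, _⟩ := Dp_anti h hz ht.1 ht.2 le_rfl
  have e4 : ‖pt P t z‖ ^ 2 ≤ ‖z‖ ^ 2 := by linarith
  exact mem_ball_zero_iff.2 (((sq_le_sq₀ (norm_nonneg _) (norm_nonneg _)).1 e4).trans_lt hz)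

private theorem D4_in {P : E →L[ℂ] E} (h : Prj P) {z : E} (hz : ‖z‖ < 1) {t : ℝ} (ht : 0 ≤ t)
    (ht1 : t ≤ 1) : ‖1 - ⟪pt P t z, z⟫_ℂ‖ ≤ 1 - ‖pt P t z‖ ^ 2 := by
  have horth : ⟪P z, z - P z⟫_ℂ = 0 := by
    rw [h.sa, map_sub, h.idem, sub_self, inner_zero_right]
  have horth' : ⟪z - P z, P z⟫_ℂ = 0 := by
    rw [← inner_conj_symm, horth, map_zero]
  have hin : ⟪pt P t z, z⟫_ℂ = ((‖P z‖ ^ 2 + t * ‖z - P z‖ ^ 2 : ℝ) : ℂ) := by
    have e1 : ⟪P z, P z⟫_ℂ = ((‖P z‖ ^ 2 : ℝ) : ℂ) := by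
      rw [Complex.ofReal_pow]
      exact inner_self_eq_norm_sq_to_K (P z)
    have e2 : ⟪z - P z, z - P z⟫_ℂ = ((‖z - P z‖ ^ 2 : ℝ) : ℂ) := by
      rw [Complex.ofReal_pow]
      exact inner_self_eq_norm_sq_to_K (z - P z)
    have e0 : ⟪pt P t z, z⟫_ℂ = ⟪pt P t z, P z + (z - P z)⟫_ℂ := by
      rw [add_sub_cancel]
    rw [e0]
    unfold pt
    rw [inner_add_left, inner_add_right, inner_add_right, inner_smul_left, inner_smul_left,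
      horth, horth', e1, e2, Complex.conj_ofReal]
    push_cast
    ring
  have e : 1 - ⟪pt P t z, z⟫_ℂ = ((1 - ‖P z‖ ^ 2 - t * ‖z - P z‖ ^ 2 : ℝ) : ℂ) := by
    rw [hin]
    push_cast
    ring
  have hp := pyth h z
  have hz2 : ‖z‖ ^ 2 < 1 := by nlinarith [norm_nonneg z]
  have hq := sq_nonneg ‖z - P z‖
  have h3 : 0 ≤ (1 - t) * ‖z - P z‖ ^ 2 := mul_nonneg (sub_nonneg.2 ht1) hq
  have h4 : 0 ≤ t * ((1 - t) * ‖z - P z‖ ^ 2) := mul_nonneg ht h3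
  rw [e, Complex.norm_real, Real.norm_of_nonneg (by nlinarith), Dp_eq h]
  unfold Dp
  nlinarith

private theorem D4_pos {c C : ℝ} (hc : 0 < c) {H : E → ℂ} (hH : Adm c C H) {w : E}
    (hw : w ∈ ball (0 : E) 1) : 0 < ‖H w‖ := by
  have h1 : ‖w‖ < 1 := mem_ball_zero_iff.1 hw
  have h2 : 0 < 1 - ‖w‖ ^ 2 := by nlinarith [norm_nonneg w]
  exact (mul_pos hc h2).trans_le (hH.lo w hw)

private theorem D4_cmp {c C : ℝ} (hc : 0 < c) (hC : 0 < C) {H : E → ℂ} (hH : Adm c C H)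
    {P : E →L[ℂ] E} (h : Prj P) {z : E} (hz : z ∈ ball (0 : E) 1) {t : ℝ}
    (ht : t ∈ Icc (0 : ℝ) 1) : ‖H z‖ ≤ (C * (1 + 1 / c)) * ‖H (pt P t z)‖ := by
  have hy := D4_mem h (mem_ball_zero_iff.1 hz) ht
  have h1 := hH.tri z hz _ hy
  have h2 := D4_in h (mem_ball_zero_iff.1 hz) ht.1 ht.2
  have h3 := hH.lo _ hy
  have h4 : 1 - ‖pt P t z‖ ^ 2 ≤ ‖H (pt P t z)‖ / c := by
    rw [le_div_iff₀ hc]
    linarith [mul_comm c (1 - ‖pt P t z‖ ^ 2)]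
  calc ‖H z‖ ≤ C * (‖H (pt P t z)‖ + ‖H (pt P t z)‖ / c) :=
        h1.trans (mul_le_mul_of_nonneg_left (by linarith) hC.le)
    _ = (C * (1 + 1 / c)) * ‖H (pt P t z)‖ := by ring

private theorem D4_prod {J : ℕ} {A : ℝ} (hA : 1 ≤ A) {x y : Fin J → ℝ} (hx : ∀ j, 0 ≤ x j)
    (hy : ∀ j, 0 < y j) (h : ∀ j, x j ≤ A * y j) (S : Finset (Fin J)) :
    (∏ j ∈ S, x j) / (∏ j ∈ S, y j) ≤ A ^ J := by
  have h1 : ∏ j ∈ S, x j ≤ A ^ S.card * ∏ j ∈ S, y j := by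
    refine (Finset.prod_le_prod (fun j _ => hx j) fun j _ => h j).trans (le_of_eq ?_)
    rw [Finset.prod_mul_distrib, Finset.prod_const]
  have h2 : 0 < ∏ j ∈ S, y j := Finset.prod_pos fun j _ => hy j
  refine ((div_le_iff₀ h2).2 h1).trans (pow_le_pow_right₀ hA ?_)
  exact (Finset.card_le_univ S).trans (le_of_eq (Fintype.card_fin J))

private theorem D4_prod2 {J : ℕ} {A : ℝ} (hA : 1 ≤ A) {x y : Fin J → ℝ} (hx : ∀ j, 0 ≤ x j)
    (hy : ∀ j, 0 < y j) (h : ∀ j, x j ≤ A * y j) (j : Fin J) :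
    (∏ j, x j) / (∏ j, y j) ≤ A ^ J * (x j / y j) := by
  rw [← Finset.mul_prod_erase Finset.univ x (Finset.mem_univ j),
    ← Finset.mul_prod_erase Finset.univ y (Finset.mem_univ j), mul_div_mul_comm, mul_comm]
  exact mul_le_mul_of_nonneg_right (D4_prod hA hx hy h _) (div_nonneg (hx j) (hy j).le)

private theorem D4_cont {J : ℕ} {c C s : ℝ} (hc : 0 < c) (hC : 0 < C) (hs : 0 < s)
    {H : Fin J → E → ℂ} (hH : ∀ i, Adm c C (H i)) {b : E → ℝ} (hb : Dst C b)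
    {P : E →L[ℂ] E} (hP : Prj P) {z : E} (hz : z ∈ ball (0 : E) 1) :
    ContinuousOn (fun t : ℝ => (∏ j, ‖H j z‖) / (∏ j, ‖H j (pt P t z)‖) *
      ((1 - ‖pt P t z‖ ^ 2) / b (pt P t z)) ^ s) (Icc 0 1) := by
  have hpc : ContinuousOn (fun t : ℝ => pt P t z) (Icc 0 1) := by
    unfold pt
    fun_prop
  have hm : MapsTo (fun t : ℝ => pt P t z) (Icc 0 1) (ball 0 1) := fun t ht =>
    D4_mem hP (mem_ball_zero_iff.1 hz) ht
  have h1 : ∀ j, ContinuousOn (fun t : ℝ => ‖H j (pt P t z)‖) (Icc 0 1) := fun j =>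
    ((hH j).holo.continuousOn.comp hpc hm).norm
  have h2 : ContinuousOn (fun t : ℝ => ∏ j, ‖H j (pt P t z)‖) (Icc 0 1) :=
    continuousOn_finsetProd _ fun j _ => h1 j
  have h3 : ContinuousOn (fun t : ℝ => 1 - ‖pt P t z‖ ^ 2) (Icc 0 1) :=
    continuousOn_const.sub (hpc.norm.pow 2)
  have h4 : ContinuousOn (fun t : ℝ => b (pt P t z)) (Icc 0 1) := hb.cont.comp hpc hm
  refine (continuousOn_const.div h2 fun t ht => ?_).mul
    ((h3.div h4 fun t ht => ?_).rpow_const fun t ht => Or.inr hs.le)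
  · exact Finset.prod_ne_zero_iff.2 fun j _ => (D4_pos hc (hH j) (hm ht)).ne'
  · exact (hb.pos hC (hm ht)).ne'

private theorem D4_scale {F k : ℝ → ℝ} {N K : ℝ} (hN : 0 < N)
    (h : ∫ t in Icc (0 : ℝ) 1, (F t / N) * k t ≤ K) :
    ∫ t in Icc (0 : ℝ) 1, F t * k t ≤ N * K := by
  have e : ∫ t in Icc (0 : ℝ) 1, F t * k t = N * ∫ t in Icc (0 : ℝ) 1, (F t / N) * k t := by
    rw [← integral_const_mul]
    refine integral_congr_ae (Filter.Eventually.of_forall fun t => ?_)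
    have hN' := hN.ne'
    show F t * k t = N * ((F t / N) * k t)
    field_simp
  rw [e]
  exact mul_le_mul_of_nonneg_left h hN.le

private theorem D4_term {J : ℕ} {c C s ρ : ℝ} (hc : 0 < c) (hC : 0 < C) (hs : 0 < s)
    (hs1 : s ≤ 1 / 8) (hρ : 0 < ρ) : ∃ K : ℝ, 0 ≤ K ∧ ∀ H : Fin J → E → ℂ, (∀ i, Adm c C (H i)) →
      ∀ b : E → ℝ, Dst C b → ∀ P : E →L[ℂ] E, Prj P →
      ∀ z ∈ ball (0 : E) 1, ((∃ j, ∀ w ∈ ball (0 : E) 1, b w = ‖H j w‖) ∨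
        ∀ t ∈ Icc (0 : ℝ) 1, ρ * (1 - ‖P z‖ ^ 2) ≤ b (pt P t z)) →
      ∫ t in Icc (0 : ℝ) 1, ((∏ j, ‖H j z‖) / (∏ j, ‖H j (pt P t z)‖) *
        ((1 - ‖pt P t z‖ ^ 2) / b (pt P t z)) ^ s) * (rr P z / (1 - t ^ 2 * rr P z ^ 2)) ≤ K := by
  obtain ⟨K2, k2, o2⟩ := one_var2 hs (by linarith : s ≤ 1)
  obtain ⟨K3, k3, o3⟩ := one_var3 hs (by linarith : s ≤ 1)
  obtain ⟨A, hA⟩ : ∃ A, A = max 1 (C * (1 + 1 / c)) := ⟨_, rfl⟩
  have hA1 : 1 ≤ A := hA ▸ le_max_left _ _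
  have hA2 : C * (1 + 1 / c) ≤ A := hA ▸ le_max_right _ _
  have hA0 : 0 < A := by linarith
  have hAJ : 0 < A ^ J := pow_pos hA0 J
  obtain ⟨M, hM⟩ : ∃ M, M = c⁻¹ * c⁻¹ ^ s + A * A ^ s := ⟨_, rfl⟩
  have hc' : 0 < c⁻¹ := inv_pos.2 hc
  have m1 : 0 < c⁻¹ * c⁻¹ ^ s := mul_pos hc' (Real.rpow_pos_of_pos hc' s)
  have m2 : 0 < A * A ^ s := mul_pos hA0 (Real.rpow_pos_of_pos hA0 s)
  have hM0 : 0 < M := by linarith
  have hρ' : 0 < ρ⁻¹ ^ s := Real.rpow_pos_of_pos (inv_pos.2 hρ) s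
  refine ⟨A ^ J * M * K2 + A ^ J * ρ⁻¹ ^ s * K3, by positivity, ?_⟩
  intro H hH b hb P hP z hz hor
  have hz1 : ‖z‖ < 1 := mem_ball_zero_iff.1 hz
  obtain ⟨r0, r1, β0, -, -⟩ := rr_facts hP hz1 0
  have hDp : ∀ t, 1 - ‖pt P t z‖ ^ 2 = (1 - ‖P z‖ ^ 2) * (1 - t ^ 2 * rr P z ^ 2) := fun t => by
    rw [Dp_eq hP, (rr_facts hP hz1 t).2.2.2.2]
  have hτ : ∀ t ∈ Icc (0 : ℝ) 1, 0 < 1 - t ^ 2 * rr P z ^ 2 := by
    intro t ht
    have h1 : t ^ 2 ≤ 1 := by nlinarith [ht.1, ht.2]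
    have h2 : rr P z ^ 2 < 1 := by nlinarith
    have h3 : t ^ 2 * rr P z ^ 2 ≤ rr P z ^ 2 := by nlinarith [sq_nonneg (rr P z)]
    linarith
  have hcmp : ∀ t ∈ Icc (0 : ℝ) 1, ∀ j, ‖H j z‖ ≤ A * ‖H j (pt P t z)‖ := fun t ht j =>
    (D4_cmp hc hC (hH j) hP hz ht).trans (mul_le_mul_of_nonneg_right hA2 (norm_nonneg _))
  have hmem : ∀ t ∈ Icc (0 : ℝ) 1, pt P t z ∈ ball (0 : E) 1 := fun t ht => D4_mem hP hz1 ht
  have hcont := D4_cont hc hC hs hH hb hP hz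
  obtain ⟨β, hβ⟩ : ∃ β, β = 1 - ‖P z‖ ^ 2 := ⟨_, rfl⟩
  rw [← hβ] at β0
  rcases hor with ⟨j, hj⟩ | hB
  · have hκ0 : 0 < ‖H j z‖ := D4_pos hc (hH j) hz
    have h1 : ∫ t in Icc (0 : ℝ) 1, (((∏ j, ‖H j z‖) / (∏ j, ‖H j (pt P t z)‖) *
        ((1 - ‖pt P t z‖ ^ 2) / b (pt P t z)) ^ s) / (A ^ J * M)) *
        (rr P z / (1 - t ^ 2 * rr P z ^ 2)) ≤ K2 := by
      have key : ∀ t ∈ Icc (0 : ℝ) 1, (∏ j, ‖H j z‖) / (∏ j, ‖H j (pt P t z)‖) *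
          ((1 - ‖pt P t z‖ ^ 2) / b (pt P t z)) ^ s ≤ A ^ J * ((‖H j z‖ / ‖H j (pt P t z)‖) *
          (β * (1 - t ^ 2 * rr P z ^ 2) / ‖H j (pt P t z)‖) ^ s) := by
        intro t ht
        rw [hDp, ← hβ, hj _ (hmem t ht), ← mul_assoc]
        refine mul_le_mul_of_nonneg_right ?_ (Real.rpow_nonneg (div_nonneg
          (mul_nonneg β0.le (hτ t ht).le) (norm_nonneg _)) s)
        exact D4_prod2 hA1 (fun k => norm_nonneg _) (fun k => D4_pos hc (hH k) (hmem t ht))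
          (fun k => hcmp t ht k) j
      refine o2 (‖H j z‖ / β) (rr P z) (div_pos hκ0 β0) r0 r1 _ (hcont.div_const _) ?_ ?_
      · intro t ht
        have hy0 := D4_pos hc (hH j) (hmem t ht)
        have hlo : c * (β * (1 - t ^ 2 * rr P z ^ 2)) ≤ ‖H j (pt P t z)‖ := by
          have := (hH j).lo _ (hmem t ht)
          rwa [hDp, ← hβ] at this
        have hbt : 0 < β * (1 - t ^ 2 * rr P z ^ 2) := mul_pos β0 (hτ t ht)
        have g1 : ‖H j z‖ / ‖H j (pt P t z)‖ ≤ c⁻¹ * (‖H j z‖ / β / (1 - t ^ 2 * rr P z ^ 2)) := by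
          rw [div_div, inv_mul_eq_div, div_div, mul_comm (β * _) c]
          exact div_le_div_of_nonneg_left hκ0.le (mul_pos hc hbt) hlo
        have g2 : (β * (1 - t ^ 2 * rr P z ^ 2) / ‖H j (pt P t z)‖) ^ s ≤ c⁻¹ ^ s := by
          refine Real.rpow_le_rpow (div_nonneg hbt.le hy0.le) ?_ hs.le
          rw [div_le_iff₀ hy0, inv_mul_eq_div, le_div_iff₀ hc, mul_comm]
          exact hlo
        have g3 : 0 ≤ ‖H j z‖ / β / (1 - t ^ 2 * rr P z ^ 2) :=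
          div_nonneg (div_nonneg hκ0.le β0.le) (hτ t ht).le
        rw [div_le_iff₀ (mul_pos hAJ hM0)]
        refine (key t ht).trans ?_
        calc A ^ J * ((‖H j z‖ / ‖H j (pt P t z)‖) *
              (β * (1 - t ^ 2 * rr P z ^ 2) / ‖H j (pt P t z)‖) ^ s)
            ≤ A ^ J * ((c⁻¹ * (‖H j z‖ / β / (1 - t ^ 2 * rr P z ^ 2))) * c⁻¹ ^ s) := by
              refine mul_le_mul_of_nonneg_left (mul_le_mul g1 g2 (Real.rpow_nonneg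
                (div_nonneg hbt.le hy0.le) s) (mul_nonneg hc'.le g3)) hAJ.le
          _ = A ^ J * ((c⁻¹ * c⁻¹ ^ s) * (‖H j z‖ / β / (1 - t ^ 2 * rr P z ^ 2))) := by ring
          _ ≤ A ^ J * (M * (‖H j z‖ / β / (1 - t ^ 2 * rr P z ^ 2))) :=
              mul_le_mul_of_nonneg_left (mul_le_mul_of_nonneg_right (by linarith) g3) hAJ.le
          _ = ‖H j z‖ / β / (1 - t ^ 2 * rr P z ^ 2) * (A ^ J * M) := by ring
      · intro t ht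
        have hy0 := D4_pos hc (hH j) (hmem t ht)
        have hbt : 0 < β * (1 - t ^ 2 * rr P z ^ 2) := mul_pos β0 (hτ t ht)
        have g0 : 0 ≤ (1 - t ^ 2 * rr P z ^ 2) / (‖H j z‖ / β) :=
          div_nonneg (hτ t ht).le (div_nonneg hκ0.le β0.le)
        have g1 : ‖H j z‖ / ‖H j (pt P t z)‖ ≤ A := (div_le_iff₀ hy0).2 (hcmp t ht j)
        have g2 : (β * (1 - t ^ 2 * rr P z ^ 2) / ‖H j (pt P t z)‖) ^ s ≤
            A ^ s * ((1 - t ^ 2 * rr P z ^ 2) / (‖H j z‖ / β)) ^ s := by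
          rw [← Real.mul_rpow hA0.le g0]
          refine Real.rpow_le_rpow (div_nonneg hbt.le hy0.le) ?_ hs.le
          have e : A * ((1 - t ^ 2 * rr P z ^ 2) / (‖H j z‖ / β)) =
              (β * (1 - t ^ 2 * rr P z ^ 2)) * A / ‖H j z‖ := by
            have := β0.ne'
            have := hκ0.ne'
            field_simp
          rw [e, div_le_div_iff₀ hy0 hκ0]
          exact (mul_le_mul_of_nonneg_left (hcmp t ht j) hbt.le).trans (le_of_eq (mul_assoc _ _ _).symm)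
        have g3 : 0 ≤ ((1 - t ^ 2 * rr P z ^ 2) / (‖H j z‖ / β)) ^ s := Real.rpow_nonneg g0 s
        rw [div_le_iff₀ (mul_pos hAJ hM0)]
        refine (key t ht).trans ?_
        calc A ^ J * ((‖H j z‖ / ‖H j (pt P t z)‖) *
              (β * (1 - t ^ 2 * rr P z ^ 2) / ‖H j (pt P t z)‖) ^ s)
            ≤ A ^ J * (A * (A ^ s * ((1 - t ^ 2 * rr P z ^ 2) / (‖H j z‖ / β)) ^ s)) := by
              refine mul_le_mul_of_nonneg_left (mul_le_mul g1 g2 (Real.rpow_nonneg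
                (div_nonneg hbt.le hy0.le) s) hA0.le) hAJ.le
          _ = A ^ J * ((A * A ^ s) * ((1 - t ^ 2 * rr P z ^ 2) / (‖H j z‖ / β)) ^ s) := by ring
          _ ≤ A ^ J * (M * ((1 - t ^ 2 * rr P z ^ 2) / (‖H j z‖ / β)) ^ s) :=
              mul_le_mul_of_nonneg_left (mul_le_mul_of_nonneg_right (by linarith) g3) hAJ.le
          _ = ((1 - t ^ 2 * rr P z ^ 2) / (‖H j z‖ / β)) ^ s * (A ^ J * M) := by ring
    refine (D4_scale (mul_pos hAJ hM0) h1).trans ?_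
    have : 0 ≤ A ^ J * ρ⁻¹ ^ s * K3 := by positivity
    linarith
  · have h1 : ∫ t in Icc (0 : ℝ) 1, (((∏ j, ‖H j z‖) / (∏ j, ‖H j (pt P t z)‖) *
        ((1 - ‖pt P t z‖ ^ 2) / b (pt P t z)) ^ s) / (A ^ J * ρ⁻¹ ^ s)) *
        (rr P z / (1 - t ^ 2 * rr P z ^ 2)) ≤ K3 := by
      refine o3 (rr P z) r0 r1 _ (hcont.div_const _) ?_
      intro t ht
      have hbt : 0 < β * (1 - t ^ 2 * rr P z ^ 2) := mul_pos β0 (hτ t ht)
      have hby : 0 < b (pt P t z) := hb.pos hC (hmem t ht)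
      have hB' := hB t ht
      rw [← hβ] at hB'
      have g1 : (∏ j, ‖H j z‖) / (∏ j, ‖H j (pt P t z)‖) ≤ A ^ J :=
        D4_prod hA1 (fun k => norm_nonneg _) (fun k => D4_pos hc (hH k) (hmem t ht))
          (fun k => hcmp t ht k) Finset.univ
      have g2 : ((1 - ‖pt P t z‖ ^ 2) / b (pt P t z)) ^ s ≤ ρ⁻¹ ^ s * (1 - t ^ 2 * rr P z ^ 2) ^ s := by
        rw [hDp, ← hβ, ← Real.mul_rpow (inv_pos.2 hρ).le (hτ t ht).le]
        refine Real.rpow_le_rpow (div_nonneg hbt.le hby.le) ?_ hs.le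
        rw [div_le_iff₀ hby, inv_mul_eq_div, div_mul_eq_mul_div, le_div_iff₀ hρ]
        calc β * (1 - t ^ 2 * rr P z ^ 2) * ρ = (1 - t ^ 2 * rr P z ^ 2) * (ρ * β) := by ring
          _ ≤ (1 - t ^ 2 * rr P z ^ 2) * b (pt P t z) :=
            mul_le_mul_of_nonneg_left hB' (hτ t ht).le
      rw [div_le_iff₀ (mul_pos hAJ hρ')]
      calc (∏ j, ‖H j z‖) / (∏ j, ‖H j (pt P t z)‖) * ((1 - ‖pt P t z‖ ^ 2) / b (pt P t z)) ^ s
          ≤ A ^ J * (ρ⁻¹ ^ s * (1 - t ^ 2 * rr P z ^ 2) ^ s) := by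
            refine mul_le_mul g1 g2 (Real.rpow_nonneg (div_nonneg ?_ hby.le) s) hAJ.le
            rw [hDp, ← hβ]
            exact hbt.le
        _ = (1 - t ^ 2 * rr P z ^ 2) ^ s * (A ^ J * ρ⁻¹ ^ s) := by ring
    refine (D4_scale (mul_pos hAJ hρ') h1).trans ?_
    have : 0 ≤ A ^ J * M * K2 := by positivity
    linarith

/-- The path integral. Let `b = 1 - ‖P z‖²`, `r = rr P z`, `τ = 1 - t² r²`, `y = pt P t z`, `1 - ‖y‖² = b τ` (`rr_facts`, `Dp_eq`; see the proof of `TK.GI_H`, TK/K4b.lean), `‖1 - ⟪y, z⟫‖ ≤ 1 - ‖y‖²`. For all `i`: `‖H i z‖ ≤ C' ‖H i y‖` (`tri`, `lo`). The value at `z` is `Psi s b z ≤ r (2 C)^s`-like bounded (`lo`).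
The integral is `∑ i, ∫ (∏ ‖H j z‖/∏ ‖H j y‖) ((1 - ‖y‖²)/b i y)^s (kernel)`. If `b i = ‖H j ·‖`: the factors `≠ j` are `≤ C'`, and with `κ = ‖H j z‖/b`: `Φ t = (‖H j z‖/‖H j y‖) (b τ/‖H j y‖)^s` satisfies, up to constants, `Φ ≤ κ/τ` (`‖H j y‖ ≥ c b τ`, and `(b τ/‖H j y‖)^s ≤ c^(-s)`) and
`Φ ≤ C' (b τ/‖H j y‖)^s ≤ C'' (τ/κ)^s` (`‖H j y‖ ≥ ‖H j z‖/C'`): `one_var2`. In the other case all factors are `≤ C'`, and `(b τ/b i y)^s ≤ (τ/ρ)^s`: `one_var3`. Divide by the constants before applying `one_var2`, `one_var3`. -/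
theorem path_psi {J r : ℕ} {c C s ρ : ℝ} (hc : 0 < c) (hC : 0 < C) (hs : 0 < s) (hs1 : s ≤ 1 / 8)
    (hρ : 0 < ρ) : ∃ C' : ℝ, 0 < C' ∧ ∀ H : Fin J → E → ℂ, (∀ i, Adm c C (H i)) →
      ∀ b : Fin r → E → ℝ, (∀ i, Dst C (b i)) → ∀ P : E →L[ℂ] E, Prj P →
      ∀ z ∈ ball (0 : E) 1, (∀ i, (∃ j, ∀ w ∈ ball (0 : E) 1, b i w = ‖H j w‖) ∨
        ∀ t ∈ Icc (0 : ℝ) 1, ρ * (1 - ‖P z‖ ^ 2) ≤ b i (pt P t z)) →
      (∏ j, ‖H j z‖) * (Psi s b z / ∏ j, ‖H j z‖ +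
        GI (fun y => Psi s b y / ∏ j, ‖H j y‖) P z) ≤ C' := by
  obtain ⟨K, hK, hT⟩ := D4_term (E := E) (J := J) hc hC hs hs1 hρ
  refine ⟨r * (C ^ s + K) + 1, by positivity, ?_⟩
  intro H hH b hb P hP z hz hor
  have hz1 : ‖z‖ < 1 := mem_ball_zero_iff.1 hz
  have hPr : 0 < ∏ j, ‖H j z‖ := Finset.prod_pos fun j _ => D4_pos hc (hH j) hz
  have e1 : (∏ j, ‖H j z‖) * (Psi s b z / ∏ j, ‖H j z‖) = Psi s b z :=
    mul_div_cancel₀ _ hPr.ne'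
  have h1 : Psi s b z ≤ r * C ^ s := by
    unfold Psi
    refine (Finset.sum_le_card_nsmul Finset.univ _ (C ^ s) fun i _ => ?_).trans (le_of_eq ?_)
    · have hbz : 0 < b i z := (hb i).pos hC hz
      have h2 : 0 < 1 - ‖z‖ ^ 2 := by nlinarith [norm_nonneg z]
      refine Real.rpow_le_rpow (div_nonneg h2.le hbz.le) ?_ hs.le
      rw [div_le_iff₀ hbz]
      exact (hb i).lo z hz
    · rw [Finset.card_univ, Fintype.card_fin, nsmul_eq_mul]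
  have hkc : ContinuousOn (fun t : ℝ => rr P z / (1 - t ^ 2 * rr P z ^ 2)) (Icc 0 1) := by
    obtain ⟨r0, r1, -, -, -⟩ := rr_facts hP hz1 0
    refine continuousOn_const.div (by fun_prop) fun t ht => ?_
    have h1 : t ^ 2 ≤ 1 := by nlinarith [ht.1, ht.2]
    have h2 : rr P z ^ 2 < 1 := by nlinarith
    have h3 : t ^ 2 * rr P z ^ 2 ≤ rr P z ^ 2 := by nlinarith [sq_nonneg (rr P z)]
    have h4 : 0 < 1 - t ^ 2 * rr P z ^ 2 := by linarith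
    exact h4.ne'
  have e2 : (∏ j, ‖H j z‖) * GI (fun y => Psi s b y / ∏ j, ‖H j y‖) P z =
      ∑ i, ∫ t in Icc (0 : ℝ) 1, ((∏ j, ‖H j z‖) / (∏ j, ‖H j (pt P t z)‖) *
        ((1 - ‖pt P t z‖ ^ 2) / b i (pt P t z)) ^ s) * (rr P z / (1 - t ^ 2 * rr P z ^ 2)) := by
    rw [← integral_finsetSum]
    · unfold GI
      rw [← integral_const_mul]
      refine integral_congr_ae (Filter.Eventually.of_forall fun t => ?_)
      show (∏ j, ‖H j z‖) * (Psi s b (pt P t z) / (∏ j, ‖H j (pt P t z)‖) *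
        (rr P z / (1 - t ^ 2 * rr P z ^ 2))) = ∑ i, ((∏ j, ‖H j z‖) / (∏ j, ‖H j (pt P t z)‖) *
        ((1 - ‖pt P t z‖ ^ 2) / b i (pt P t z)) ^ s) * (rr P z / (1 - t ^ 2 * rr P z ^ 2))
      unfold Psi
      rw [← Finset.sum_mul, ← Finset.mul_sum]
      ring
    · intro i _
      exact ((D4_cont hc hC hs hH (hb i) hP hz).mul hkc).integrableOn_Icc
  have h2 : ∑ i, ∫ t in Icc (0 : ℝ) 1, ((∏ j, ‖H j z‖) / (∏ j, ‖H j (pt P t z)‖) *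
        ((1 - ‖pt P t z‖ ^ 2) / b i (pt P t z)) ^ s) * (rr P z / (1 - t ^ 2 * rr P z ^ 2)) ≤
      r * K := by
    refine (Finset.sum_le_card_nsmul Finset.univ _ K fun i _ => ?_).trans (le_of_eq ?_)
    · exact hT H hH (b i) (hb i) P hP z hz (hor i)
    · rw [Finset.card_univ, Fintype.card_fin, nsmul_eq_mul]
  rw [mul_add, e1, e2]
  linarith [mul_add (r : ℝ) (C ^ s) K]

end Pool.Agent.MPca0fc2.VK
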