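import Mathlib
import Pool.Agent.Lib.MP_ca0fc2_an.VK.D1
import Pool.Agent.Lib.MP_ca0fc2_an.PV.A2
import Pool.Agent.Lib.MP_ca0fc2_an.SH.H2

set_option autoImplicit false
set_option linter.unusedSectionVars false

open Metric Set MeasureTheory Filter Topology
open scoped InnerProductSpace ENNReal ContDiff

namespace Pool.Agent.MPca0fc2.VK

open Pool.Agent.MPca0fc2.PT
open Pool.Agent.MPca0fc2.QT
open Pool.Agent.MPca0fc2.TS
open Pool.Agent.MPca0fc2.TE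
open Pool.Agent.MPca0fc2.TK

variable {E : Type*} [NormedAddCommGroup E] [InnerProductSpace ℂ E] [FiniteDimensional ℂ E]
  [MeasurableSpace E] [BorelSpace E]

private lemma D5_geo {x y : E} (hx : ‖x‖ < 1) (hy : ‖y‖ < 1) :
    0 < ‖1 - ⟪x, y⟫_ℂ‖ ∧ 1 - ‖x‖ ^ 2 ≤ 2 * ‖1 - ⟪x, y⟫_ℂ‖ := by
  have h1 : ‖⟪x, y⟫_ℂ‖ ≤ ‖x‖ * ‖y‖ := norm_inner_le_norm x y
  have h2 : (1 : ℝ) - ‖⟪x, y⟫_ℂ‖ ≤ ‖1 - ⟪x, y⟫_ℂ‖ := by
    have h3 := norm_sub_norm_le (1 : ℂ) ⟪x, y⟫_ℂ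
    rw [norm_one] at h3
    exact h3
  have hx0 := norm_nonneg x
  have hy0 := norm_nonneg y
  have h4 : ‖x‖ * ‖y‖ ≤ ‖x‖ := by nlinarith
  constructor
  · linarith
  · nlinarith

private lemma D5_pos {C : ℝ} (hC : 0 < C) {b : E → ℝ} (hb : Dst C b) {x : E} (hx : ‖x‖ < 1) :
    0 < b x := by
  have h1 := hb.lo x (mem_ball_zero_iff.2 hx)
  have h2 : 0 < 1 - ‖x‖ ^ 2 := by nlinarith [norm_nonneg x]
  by_contra h3
  have h4 : C * b x ≤ 0 := mul_nonpos_of_nonneg_of_nonpos hC.le (not_lt.1 h3)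
  linarith

private lemma D5_pt {C : ℝ} (hC : 0 < C) {b : E → ℝ} (hb : Dst C b) {x y : E} (hx : ‖x‖ < 1)
    (hy : ‖y‖ < 1) : (1 - ‖x‖ ^ 2) / b x ≤ (4 * C + 2 * C ^ 2) * (‖1 - ⟪x, y⟫_ℂ‖ / b y) := by
  obtain ⟨hA, hxA⟩ := D5_geo hx hy
  have hbx := D5_pos hC hb hx
  have hby := D5_pos hC hb hy
  have h0 : 0 < 1 - ‖x‖ ^ 2 := by nlinarith [norm_nonneg x]
  have hlo := hb.lo x (mem_ball_zero_iff.2 hx)
  have htri := hb.tri y (mem_ball_zero_iff.2 hy) x (mem_ball_zero_iff.2 hx)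
  set A := ‖1 - ⟪x, y⟫_ℂ‖ with hAdef
  have hAy : 0 ≤ A / b y := by positivity
  rcases le_or_gt (b y / (2 * C)) (b x) with h | h
  · have h1 : (1 - ‖x‖ ^ 2) / b x ≤ 4 * C * (A / b y) := by
      calc (1 - ‖x‖ ^ 2) / b x ≤ (2 * A) / (b y / (2 * C)) :=
            div_le_div₀ (by positivity) hxA (by positivity) h
        _ = 4 * C * (A / b y) := by field_simp; ring
    have h2 : 0 ≤ 2 * C ^ 2 * (A / b y) := by positivity
    calc (1 - ‖x‖ ^ 2) / b x ≤ 4 * C * (A / b y) + 2 * C ^ 2 * (A / b y) := by linarith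
      _ = _ := by ring
  · have h1 : C * b x < b y / 2 := by
      calc C * b x < C * (b y / (2 * C)) := mul_lt_mul_of_pos_left h hC
        _ = b y / 2 := by field_simp
    have h2 : b y ≤ 2 * C * A := by nlinarith
    have h3 : 1 ≤ 2 * C * (A / b y) := by
      have h4 : 2 * C * (A / b y) = 2 * C * A / b y := by ring
      rw [h4, le_div_iff₀ hby]
      linarith
    have h5 : (1 - ‖x‖ ^ 2) / b x ≤ C := by
      rw [div_le_iff₀ hbx]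
      exact hlo
    have h6 : 0 ≤ 4 * C * (A / b y) := by positivity
    calc (1 - ‖x‖ ^ 2) / b x ≤ C * 1 := by linarith
      _ ≤ C * (2 * C * (A / b y)) := mul_le_mul_of_nonneg_left h3 hC.le
      _ ≤ 4 * C * (A / b y) + C * (2 * C * (A / b y)) := by linarith
      _ = _ := by ring

private lemma D5_psi {r : ℕ} {C s : ℝ} (hC : 0 < C) (hs : 0 < s) {b : Fin r → E → ℝ}
    (hb : ∀ i, Dst C (b i)) {x y : E} (hx : ‖x‖ < 1) (hy : ‖y‖ < 1) :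
    Psi s b x ≤ (4 * C + 2 * C ^ 2) ^ s * (∑ i, (1 / b i y) ^ s) * ‖1 - ⟪x, y⟫_ℂ‖ ^ s := by
  unfold Psi
  rw [Finset.mul_sum, Finset.sum_mul]
  refine Finset.sum_le_sum fun i _ => ?_
  obtain ⟨hA, -⟩ := D5_geo hx hy
  have hbx := D5_pos hC (hb i) hx
  have hby := D5_pos hC (hb i) hy
  have h0 : 0 < 1 - ‖x‖ ^ 2 := by nlinarith [norm_nonneg x]
  calc ((1 - ‖x‖ ^ 2) / b i x) ^ s ≤ ((4 * C + 2 * C ^ 2) * (‖1 - ⟪x, y⟫_ℂ‖ / b i y)) ^ s :=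
        Real.rpow_le_rpow (by positivity) (D5_pt hC (hb i) hx hy) hs.le
    _ = ((4 * C + 2 * C ^ 2) * (1 / b i y) * ‖1 - ⟪x, y⟫_ℂ‖) ^ s := by
        congr 1
        ring
    _ = _ := by
        rw [Real.mul_rpow (by positivity) hA.le, Real.mul_rpow (by positivity) (by positivity)]

/-- The energy of data which are Hölder off a set. Pattern: `SH.Om_cls` (SH/H2.lean). `D x = ∑ j, IG2 (f j) x ≤ N L ∑ i, ((1 - ‖x‖²)/b i x)^s`. For each `i`, with `D' = ‖1 - ⟪x, y⟫‖`: `((1 - ‖x‖²)/b i x)^s ≤ C' (D'/b i y)^s`: if `b i x ≥ b i y/(2 C)` because `1 - ‖x‖² ≤ 2 D'`; otherwise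
`b i y ≤ 2 C D'` (`tri`), and `(1 - ‖x‖²)/b i x ≤ C` (`lo`). Then `∫ D'^s D'^(-(m+2) - 1/4) ≤ C (1 - ‖y‖²)^(s - 1/4)` (`PV.pv_ker` with `c = 1/4 - s`), so `Om ≤ C' ∑ i, ((1 - ‖y‖²)/b i y)^s`. -/
theorem Om_psi (μ : Measure E) [μ.IsAddHaarMeasure] {m : ℕ} (hm : 1 ≤ m)
    (hdim : Module.finrank ℂ E = m + 1) (N r : ℕ) {C s L : ℝ} (hC : 0 < C) (hs : 0 < s)
    (hs1 : s ≤ 1 / 8) (hL : 0 < L) : ∃ C' : ℝ, 0 < C' ∧ ∀ f : Fin N → E → ℂ,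
      (∀ j, DifferentiableOn ℂ (f j) (ball 0 1)) →
      (∀ j, ∀ z ∈ ball (0 : E) 1, ‖f j z‖ ≤ 1) → ∀ b : Fin r → E → ℝ, (∀ i, Dst C (b i)) →
      (∀ z ∈ ball (0 : E) 1, ∀ j, IG2 (f j) z ≤ L * Psi s b z) →
      ∀ y ∈ ball (0 : E) 1, Om (nuE μ m (m + 2) f) (m + 2) y ≤ C' * Psi s b y := by
  obtain ⟨Ck, hCk, hK⟩ := PV.pv_ker (E := E) μ hm hdim (c := 1 / 4 - s) (by linarith)
    (by linarith)
  refine ⟨N * L * (4 * C + 2 * C ^ 2) ^ s * Ck + 1, by positivity, ?_⟩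
  intro f hf hb1 b hb hc y hy
  have hy1 := mem_ball_zero_iff.mp hy
  have ha : 0 < 1 - ‖y‖ ^ 2 := by nlinarith [norm_nonneg y]
  have hby : ∀ i, 0 < b i y := fun i => D5_pos hC (hb i) hy1
  obtain ⟨S, hS⟩ : ∃ S : ℝ, S = ∑ i, (1 / b i y) ^ s := ⟨_, rfl⟩
  have hS0 : 0 ≤ S := by
    rw [hS]
    exact Finset.sum_nonneg fun i _ => Real.rpow_nonneg (by have := hby i; positivity) _
  obtain ⟨G, hG⟩ : ∃ G : ℝ, G = N * L * (4 * C + 2 * C ^ 2) ^ s * S := ⟨_, rfl⟩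
  have hG0 : 0 ≤ G := by
    rw [hG]
    positivity
  have hcF : Continuous fun x : E => ‖1 - ⟪x, y⟫_ℂ‖ := by fun_prop
  have hmF : Measurable fun x : E => ‖1 - ⟪x, y⟫_ℂ‖ ^ (-(((m + 2 : ℕ) : ℝ) + 1 / 4)) :=
    hcF.measurable.pow_const _
  have hmS : Measurable fun x : E => ∑ j, IG2 (f j) x :=
    Finset.measurable_fun_sum _ fun j _ => gd_IG_meas (f j)
  have hmn : Measurable fun x : E => 1 - ‖x‖ ^ 2 := by fun_prop
  have hmD : Measurable fun x : E => ENNReal.ofReal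
      ((1 - ‖x‖ ^ 2) ^ (m + 2) * (∑ j, IG2 (f j) x) / (1 - ‖x‖ ^ 2) ^ (m + 2)) :=
    (((hmn.pow_const (m + 2)).mul hmS).div (hmn.pow_const (m + 2))).ennreal_ofReal
  have hPP : PP (nuE μ m (m + 2) f) (((m + 2 : ℕ) : ℝ) + 1 / 4) y ≤
      G * (Ck * (1 - ‖y‖ ^ 2) ^ (-(1 / 4 - s))) := by
    unfold PP
    rw [integral_eq_lintegral_of_nonneg_ae
      (Eventually.of_forall fun x => Real.rpow_nonneg (norm_nonneg _) _) hmF.aestronglyMeasurable]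
    have hB0 : 0 ≤ G * (Ck * (1 - ‖y‖ ^ 2) ^ (-(1 / 4 - s))) := by
      have : 0 ≤ (1 - ‖y‖ ^ 2) ^ (-(1 / 4 - s)) := Real.rpow_nonneg ha.le _
      positivity
    apply ENNReal.toReal_le_of_le_ofReal hB0
    unfold nuE
    rw [lintegral_withDensity_eq_lintegral_mul _ hmD hmF.ennreal_ofReal]
    calc _ ≤ ∫⁻ x in ball (0 : E) 1, ENNReal.ofReal G *
          ENNReal.ofReal (‖1 - ⟪x, y⟫_ℂ‖ ^ (-((m : ℝ) + 2 + (1 / 4 - s)))) ∂μ := by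
          refine setLIntegral_mono' measurableSet_ball fun x hx => ?_
          have hxb := hx
          rw [mem_ball_zero_iff] at hx
          have h0 : 0 < 1 - ‖x‖ ^ 2 := by nlinarith [norm_nonneg x]
          obtain ⟨hD, heD⟩ := D5_geo hx hy1
          have hs2 : ∑ j, IG2 (f j) x ≤ G * ‖1 - ⟪x, y⟫_ℂ‖ ^ s := by
            calc ∑ j, IG2 (f j) x ≤ ∑ _j : Fin N, L * Psi s b x :=
                  Finset.sum_le_sum fun j _ => hc x hxb j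
              _ = N * (L * Psi s b x) := by simp
              _ ≤ N * (L * ((4 * C + 2 * C ^ 2) ^ s * S * ‖1 - ⟪x, y⟫_ℂ‖ ^ s)) := by
                  have h5 := D5_psi hC hs hb hx hy1
                  rw [← hS] at h5
                  exact mul_le_mul_of_nonneg_left (mul_le_mul_of_nonneg_left h5 hL.le)
                    (Nat.cast_nonneg N)
              _ = G * ‖1 - ⟪x, y⟫_ℂ‖ ^ s := by rw [hG]; ring
          simp only [Pi.mul_apply]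
          rw [← ENNReal.ofReal_mul hG0, ← ENNReal.ofReal_mul (by
            have hs0 : 0 ≤ ∑ j, IG2 (f j) x := Finset.sum_nonneg fun j _ => gd_IG_nonneg hx
            positivity)]
          apply ENNReal.ofReal_le_ofReal
          have e1 : (1 - ‖x‖ ^ 2) ^ (m + 2) * (∑ j, IG2 (f j) x) / (1 - ‖x‖ ^ 2) ^ (m + 2) =
              ∑ j, IG2 (f j) x := by
            field_simp
          have e2 : ‖1 - ⟪x, y⟫_ℂ‖ ^ (-((m : ℝ) + 2 + (1 / 4 - s))) =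
              ‖1 - ⟪x, y⟫_ℂ‖ ^ s *
                ‖1 - ⟪x, y⟫_ℂ‖ ^ (-(((m + 2 : ℕ) : ℝ) + 1 / 4)) := by
            rw [← Real.rpow_add hD]
            congr 1
            push_cast
            ring
          rw [e1, e2]
          calc (∑ j, IG2 (f j) x) * ‖1 - ⟪x, y⟫_ℂ‖ ^ (-(((m + 2 : ℕ) : ℝ) + 1 / 4))
              ≤ (G * ‖1 - ⟪x, y⟫_ℂ‖ ^ s) *
                ‖1 - ⟪x, y⟫_ℂ‖ ^ (-(((m + 2 : ℕ) : ℝ) + 1 / 4)) :=
                mul_le_mul_of_nonneg_right hs2 (Real.rpow_nonneg hD.le _)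
            _ = _ := by ring
      _ = ENNReal.ofReal G *
          ∫⁻ x in ball (0 : E) 1,
            ENNReal.ofReal (‖1 - ⟪x, y⟫_ℂ‖ ^ (-((m : ℝ) + 2 + (1 / 4 - s)))) ∂μ := by
          rw [lintegral_const_mul _ (hcF.measurable.pow_const _).ennreal_ofReal]
      _ ≤ ENNReal.ofReal G *
          ENNReal.ofReal (Ck * (1 - ‖y‖ ^ 2) ^ (-(1 / 4 - s))) := mul_le_mul_right (hK y hy) _
      _ = _ := by rw [← ENNReal.ofReal_mul hG0]
  unfold Om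
  have h1 : (1 - ‖y‖ ^ 2) ^ (1 / 4 : ℝ) * (1 - ‖y‖ ^ 2) ^ (-(1 / 4 - s)) =
      (1 - ‖y‖ ^ 2) ^ s := by
    rw [← Real.rpow_add ha]
    congr 1
    ring
  have h2 : Psi s b y = S * (1 - ‖y‖ ^ 2) ^ s := by
    unfold Psi
    rw [hS, Finset.sum_mul]
    refine Finset.sum_congr rfl fun i _ => ?_
    have := hby i
    rw [← Real.mul_rpow (by positivity) ha.le]
    congr 1
    ring
  have h3 : 0 ≤ Psi s b y := by
    rw [h2]
    exact mul_nonneg hS0 (Real.rpow_nonneg ha.le _)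
  calc (1 - ‖y‖ ^ 2) ^ (1 / 4 : ℝ) * PP (nuE μ m (m + 2) f) (((m + 2 : ℕ) : ℝ) + 1 / 4) y
      ≤ (1 - ‖y‖ ^ 2) ^ (1 / 4 : ℝ) * (G * (Ck * (1 - ‖y‖ ^ 2) ^ (-(1 / 4 - s)))) :=
        mul_le_mul_of_nonneg_left hPP (Real.rpow_nonneg ha.le _)
    _ = G * Ck * ((1 - ‖y‖ ^ 2) ^ (1 / 4 : ℝ) * (1 - ‖y‖ ^ 2) ^ (-(1 / 4 - s))) := by ring
    _ = N * L * (4 * C + 2 * C ^ 2) ^ s * Ck * Psi s b y := by
        rw [h1, h2, hG]
        ring
    _ ≤ _ := by nlinarith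

end Pool.Agent.MPca0fc2.VK
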